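import Pool.Agent.Lib.MP_9a0bf1_pr.Clock

/-! Characteristic functions of increments, and transfer of the Levy property. -/

set_option autoImplicit false

open MeasureTheory ProbabilityTheory Filter Topology Complex
open scoped ENNReal NNReal

namespace Pool.Agent.Lib.MP_9a0bf1_pr

variable {Ω Ω' : Type} [MeasurableSpace Ω] [MeasurableSpace Ω']

/-- The joint characteristic function of the increments factorises. -/
def CF (P : Measure Ω) (X : ℝ≥0 → Ω → ℝ) : Prop :=
  ∀ (n : ℕ) (t : Fin (n + 1) → ℝ≥0), Monotone t → ∀ θ : Fin n → ℝ,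
    ∫ ω, cexp ((∑ j, θ j * (X (t j.succ) ω - X (t j.castSucc) ω) : ℝ) * I) ∂P =
      ∏ j, ∫ ω, cexp ((θ j * X (t j.succ - t j.castSucc) ω : ℝ) * I) ∂P

lemma CF.of_exp {P : Measure Ω} {X : ℝ≥0 → Ω → ℝ} (h0 : ∀ ω, X 0 ω = 0) (ψ : ℝ → ℂ)
    (h : ∀ (n : ℕ) (t : Fin (n + 1) → ℝ≥0), Monotone t → ∀ θ : Fin n → ℝ,
      ∫ ω, cexp ((∑ j, θ j * (X (t j.succ) ω - X (t j.castSucc) ω) : ℝ) * I) ∂P =
        cexp (∑ j, (t j.succ - t j.castSucc : ℝ) * ψ (θ j))) : CF P X := by
  intro n t ht θ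
  rw [h n t ht θ, Complex.exp_sum]
  refine Finset.prod_congr rfl fun j _ => ?_
  have h1 := h 1 ![0, t j.succ - t j.castSucc] (by simp [Fin.monotone_iff_le_succ]) fun _ => θ j
  simp only [Finset.univ_unique, Fin.default_eq_zero, Finset.sum_singleton, Fin.succ_zero_eq_one,
    Matrix.cons_val_one, Matrix.cons_val_zero, Fin.castSucc_zero, h0, sub_zero,
    NNReal.coe_zero] at h1
  rw [h1, NNReal.coe_sub (ht j.castSucc_lt_succ.le)]

lemma tendsto_cf {P : Measure Ω} [IsProbabilityMeasure P] {f : ℕ → Ω → ℝ} {g : Ω → ℝ}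
    (hf : ∀ k, Measurable (f k)) (h : ∀ᵐ ω ∂P, Tendsto (fun k => f k ω) atTop (𝓝 (g ω))) :
    Tendsto (fun k => ∫ ω, cexp (f k ω * I) ∂P) atTop (𝓝 (∫ ω, cexp (g ω * I) ∂P)) := by
  refine tendsto_integral_of_dominated_convergence (fun _ => 1)
    (fun k => ((hf k).complex_ofReal.mul_const _).cexp.aestronglyMeasurable) (integrable_const _)
    (fun k => Eventually.of_forall fun ω => (norm_exp_ofReal_mul_I _).le) ?_
  filter_upwards [h] with ω hω
  exact (((continuous_ofReal.tendsto _).comp hω).mul_const _).cexp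

lemma CF.of_tendsto {P : Measure Ω} [IsProbabilityMeasure P] {S : ℕ → ℝ≥0 → Ω → ℝ}
    {X : ℝ≥0 → Ω → ℝ} (hS : ∀ k, CF P (S k)) (hm : ∀ k t, Measurable (S k t))
    (h : ∀ᵐ ω ∂P, ∀ t, Tendsto (fun k => S k t ω) atTop (𝓝 (X t ω))) : CF P X := by
  intro n t ht θ
  refine tendsto_nhds_unique (tendsto_cf (f := fun k ω =>
    ∑ j, θ j * (S k (t j.succ) ω - S k (t j.castSucc) ω)) (fun k => Finset.measurable_sum _
      fun j _ => ((hm _ _).sub (hm _ _)).const_mul _) ?_) ?_
  · filter_upwards [h] with ω hω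
    exact tendsto_finsetSum _ fun j _ => ((hω _).sub (hω _)).const_mul _
  · simp_rw [fun k => hS k n t ht θ]
    refine tendsto_finsetProd _ fun j _ => tendsto_cf (fun k => (hm _ _).const_mul _) ?_
    filter_upwards [h] with ω hω
    exact (hω _).const_mul _

lemma charFun_map_real {P : Measure Ω} {f : Ω → ℝ} (hf : Measurable f) (θ : ℝ) :
    charFun (P.map f) θ = ∫ ω, cexp ((θ * f ω : ℝ) * I) ∂P := by
  rw [charFun_apply_real, integral_map hf.aemeasurable (by fun_prop)]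
  push_cast
  rfl

lemma CF.stat {P : Measure Ω} [IsProbabilityMeasure P] {X : ℝ≥0 → Ω → ℝ} (h : CF P X)
    (hm : ∀ t, Measurable (X t)) {s t : ℝ≥0} (hst : s ≤ t) :
    IdentDistrib (fun ω => X t ω - X s ω) (X (t - s)) P P := by
  have h1 : Measurable fun ω => X t ω - X s ω := (hm t).sub (hm s)
  refine ⟨h1.aemeasurable, (hm _).aemeasurable, ?_⟩
  have := Measure.isProbabilityMeasure_map (μ := P) h1.aemeasurable
  refine Measure.ext_of_charFun (funext fun θ => ?_)
  rw [charFun_map_real h1, charFun_map_real (hm _)]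
  simpa using h 1 ![s, t] (by simp [Fin.monotone_iff_le_succ, hst]) fun _ => θ

lemma CF.indep {P : Measure Ω} [IsProbabilityMeasure P] {X : ℝ≥0 → Ω → ℝ} (h : CF P X)
    (hm : ∀ t, Measurable (X t)) : HasIndepIncrements X P := by
  intro n t ht
  have h1 : ∀ j : Fin n, Measurable fun ω => X (t j.succ) ω - X (t j.castSucc) ω :=
    fun j => (hm _).sub (hm _)
  refine (iIndepFun_iff_charFun_pi fun j => (h1 j).aemeasurable).2 fun θ => ?_
  simp_rw [fun j : Fin n => (h.stat hm (ht j.castSucc_lt_succ.le)).map_eq,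
    charFun_map_real (hm _)]
  rw [← h n t ht θ, charFun_apply, integral_map (by fun_prop) (by fun_prop)]
  simp [PiLp.inner_apply]

lemma IsLevy.comp {P : Measure Ω} [IsProbabilityMeasure P] {P' : Measure Ω'}
    [IsProbabilityMeasure P'] {X : ℝ≥0 → Ω → ℝ}
    (h : IsLevy P X) {f : Ω' → Ω} (hf : MeasurePreserving f P' P) :
    IsLevy P' fun t ω => X t (f ω) := by
  refine ⟨fun t => (h.meas t).comp hf.measurable, fun ω => h.zero _, fun n t ht => ?_,
    fun s t => ?_, fun ω => h.right _, fun ω => h.left _⟩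
  · have h1 : ∀ j : Fin n, Measurable fun ω => X (t j.succ) ω - X (t j.castSucc) ω :=
      fun j => (h.meas _).sub (h.meas _)
    have h2 := (iIndepFun_iff_map_fun_eq_pi_map fun j => (h1 j).aemeasurable).1 (h.indep n t ht)
    refine (iIndepFun_iff_map_fun_eq_pi_map
      fun j => ((h1 j).comp hf.measurable).aemeasurable).2 ?_
    rw [← hf.map_eq, Measure.map_map (measurable_pi_lambda _ h1) hf.measurable] at h2
    simp_rw [Measure.map_map (h1 _) hf.measurable] at h2
    exact h2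
  · have h1 : Measurable fun ω => X (s + t) ω - X s ω := (h.meas _).sub (h.meas _)
    have h2 := (h.stat s t).map_eq
    rw [← hf.map_eq, Measure.map_map h1 hf.measurable,
      Measure.map_map (h.meas t) hf.measurable] at h2
    exact ⟨(h1.comp hf.measurable).aemeasurable, ((h.meas t).comp hf.measurable).aemeasurable, h2⟩

lemma IsLevy.neg {P : Measure Ω} {X : ℝ≥0 → Ω → ℝ} (h : IsLevy P X) :
    IsLevy P fun t ω => -X t ω := by
  refine ⟨fun t => (h.meas t).neg, fun ω => by rw [h.zero, neg_zero], h.indep.neg,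
    fun s t => ?_, fun ω t => (h.right ω t).neg, fun ω t => ?_⟩
  · convert (h.stat s t).comp measurable_neg using 2 with ω
    · simp only [Function.comp]
      ring
    · rfl
  · obtain ⟨l, hl⟩ := h.left ω t
    exact ⟨_, hl.neg⟩

/-- With positive probability the zeros accumulate at time `0`. -/
def Reg (P : Measure Ω) (X : ℝ≥0 → Ω → ℝ) : Prop :=
  ∃ E, MeasurableSet E ∧ P E ≠ 0 ∧ ∀ ω ∈ E, ∀ u, 0 < u → ∃ t, 0 < t ∧ t ≤ u ∧ X t ω = 0

lemma Reg.comp {P : Measure Ω} {P' : Measure Ω'} {X : ℝ≥0 → Ω → ℝ} (h : Reg P X) {f : Ω' → Ω}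
    (hf : MeasurePreserving f P' P) : Reg P' fun t ω => X t (f ω) := by
  obtain ⟨E, h1, h2, h3⟩ := h
  exact ⟨f ⁻¹' E, hf.measurable h1, by rwa [hf.measure_preimage h1.nullMeasurableSet],
    fun ω hω => h3 _ hω⟩

lemma Reg.neg {P : Measure Ω} {X : ℝ≥0 → Ω → ℝ} (h : Reg P X) : Reg P fun t ω => -X t ω := by
  simpa only [Reg, neg_eq_zero] using h

lemma Reg.hunt {P : Measure Ω} {X : ℝ≥0 → Ω → ℝ} (h : Reg P X) : Hunt P X := by
  obtain ⟨E, -, h2, h3⟩ := h
  rintro A - ⟨B, hB, hA⟩ x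
  have h4 : ∀ n, B n = ∅ := fun n => Set.eq_empty_of_forall_notMem fun y hy =>
    h2 (measure_mono_null (fun ω hω => by
      refine le_antisymm (ENNReal.le_of_forall_pos_le_add fun u hu _ => ?_) zero_le
      obtain ⟨t, t0, t1, t2⟩ := h3 ω hω u hu
      rw [zero_add]
      exact (hit_le t0 (by rwa [t2, add_zero])).trans (by exact_mod_cast t1)) ((hB n).2 y))
  simp only [h4, Set.iUnion_empty, Set.subset_empty_iff] at hA
  simp [hA, hit]

end Pool.Agent.Lib.MP_9a0bf1_pr
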