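import Pool.Agent.Lib.MP_9a0bf1_pr.Defs

/-! A process that reads the time modulo finer and finer lattices fails (H). -/

set_option autoImplicit false

open MeasureTheory ProbabilityTheory Filter Topology
open scoped ENNReal NNReal

namespace Pool.Agent.Lib.MP_9a0bf1_pr

lemma exists_phase (μ : Measure ℝ) [IsProbabilityMeasure μ] {g : ℝ → ℝ} (hg : Measurable g)
    {M : ℕ} (hM : 0 < M) : ∃ θ : ℝ, μ {x | 1 - 1 / (M : ℝ) < Int.fract (θ - g x)} ≤ (M : ℝ≥0∞)⁻¹ := by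
  by_contra h
  simp only [not_exists, not_le] at h
  have hM' : (0 : ℝ) < M := by exact_mod_cast hM
  set B : ℕ → Set ℝ := fun j => {x | 1 - 1 / (M : ℝ) < Int.fract ((j : ℝ) / M - g x)} with hB
  have hm : ∀ j, MeasurableSet (B j) := fun j =>
    measurableSet_lt measurable_const (measurable_fract.comp (measurable_const.sub hg))
  have hd : Set.PairwiseDisjoint (Finset.range M : Set ℕ) B := by
    intro i hi j hj hij
    refine Set.disjoint_left.2 fun x h1 h2 => hij ?_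
    simp only [hB, Set.mem_ofPred_eq, Finset.coe_range, Set.mem_Iio] at h1 h2 hi hj
    have h3 := Int.fract_lt_one ((i : ℝ) / M - g x)
    have h4 := Int.fract_lt_one ((j : ℝ) / M - g x)
    set n := ⌊(i : ℝ) / M - g x⌋ - ⌊(j : ℝ) / M - g x⌋ with hn
    have h5 : Int.fract ((i : ℝ) / M - g x) - Int.fract ((j : ℝ) / M - g x) =
        ((i - j - n * M : ℤ) : ℝ) / M := by
      rw [Int.fract, Int.fract, hn]
      push_cast
      field_simp
      ring
    have h6 : |((i - j - n * M : ℤ) : ℝ) / M| < 1 / M := by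
      rw [← h5, abs_lt]
      constructor <;> linarith
    rw [abs_div, abs_of_pos hM', div_lt_div_iff_of_pos_right hM', ← Int.cast_abs] at h6
    have h7 : |(i - j - n * M : ℤ)| < 1 := by exact_mod_cast h6
    have h8 : (i : ℤ) - j = n * M := by linarith [Int.abs_lt_one_iff.1 h7]
    have h9 : n = 0 := by
      by_contra h0
      rcases lt_or_gt_of_ne h0 with h0 | h0 <;> nlinarith
    rw [h9] at h8
    omega
  have h1 : ∑ j ∈ Finset.range M, μ (B j) ≤ 1 := by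
    rw [← measure_biUnion_finset hd fun j _ => hm j]
    exact prob_le_one
  have h2 : ∑ j ∈ Finset.range M, (M : ℝ≥0∞)⁻¹ < ∑ j ∈ Finset.range M, μ (B j) :=
    ENNReal.sum_lt_sum_of_nonempty (Finset.nonempty_range_iff.2 hM.ne') fun j _ => h _
  rw [Finset.sum_const, Finset.card_range, nsmul_eq_mul,
    ENNReal.mul_inv_cancel (by exact_mod_cast hM.ne') (by simp)] at h2
  exact h2.not_ge h1

lemma exists_windows (V ρ : ℕ → ℝ) (M : ℕ → ℕ) (hM : ∀ k, 0 < M k) (hρ : ∀ k, 0 < ρ k)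
    (hs : ∑' k, (M k : ℝ≥0∞)⁻¹ ≠ ∞) :
    ∃ (θ : ℕ → ℝ) (s : ℕ → ℝ → ℝ), (∀ x, s 0 x = 1) ∧ (∀ x, Monotone fun k => s k x) ∧
      (∀ k x, ∃ m : ℤ, V (k + 1) * x + s (k + 1) x = θ (k + 1) + m * ρ (k + 1)) ∧
      ∀ᵐ x : ℝ, ∀ᶠ k in atTop, s (k + 1) x ≤ s k x + (1 - 1 / M k) * ρ (k + 1) := by
  set μ := gaussianReal 0 1
  have h := fun (k : ℕ) (s : {s : ℝ → ℝ // Measurable s}) =>
    exists_phase μ (g := fun x => (V (k + 1) * x + s.1 x) / ρ (k + 1))
      (((measurable_const_mul _).add s.2).div_const _) (hM k)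
  choose φ hφ using h
  let s : ℕ → {s : ℝ → ℝ // Measurable s} := fun k => Nat.rec ⟨fun _ => 1, measurable_const⟩
    (fun k s => ⟨fun x => s.1 x + Int.fract (φ k s - (V (k + 1) * x + s.1 x) / ρ (k + 1)) *
      ρ (k + 1), s.2.add ((measurable_fract.comp (measurable_const.sub
        (((measurable_const_mul _).add s.2).div_const _))).mul_const _)⟩) k
  have h1 : ∀ k x, (s (k + 1)).1 x = (s k).1 x + Int.fract (φ k (s k) -
      (V (k + 1) * x + (s k).1 x) / ρ (k + 1)) * ρ (k + 1) := fun k x => rfl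
  refine ⟨fun k => φ (k - 1) (s (k - 1)) * ρ k, fun k => (s k).1, fun _ => rfl,
    fun x => monotone_nat_of_le_succ fun k => ?_, fun k x => ⟨-⌊φ k (s k) -
      (V (k + 1) * x + (s k).1 x) / ρ (k + 1)⌋, ?_⟩, ?_⟩
  · simp only [h1]
    exact le_add_of_nonneg_right (mul_nonneg (Int.fract_nonneg _) (hρ _).le)
  · simp only [h1, Int.fract, Nat.add_sub_cancel]
    have := (hρ (k + 1)).ne'
    push_cast
    field_simp
    ring
  · have h2 := ae_eventually_notMem (μ := μ)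
      (ne_top_of_le_ne_top hs (ENNReal.tsum_le_tsum fun k => hφ k (s k)))
    filter_upwards [(gaussianReal_absolutelyContinuous' 0 one_ne_zero).ae_le h2] with x hx
    filter_upwards [hx] with k hk
    simp only [h1]
    exact add_le_add_right (mul_le_mul_of_nonneg_right (not_lt.1 hk) (hρ _).le) _

variable {Ω : Type} [MeasurableSpace Ω]

omit [MeasurableSpace Ω] in
lemma hit_le {X : ℝ≥0 → Ω → ℝ} {x : ℝ} {A : Set ℝ} {ω : Ω} {t : ℝ≥0} (h0 : 0 < t)
    (h : x + X t ω ∈ A) : hit X x A ω ≤ t := iInf₂_le t ⟨h0, h⟩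

omit [MeasurableSpace Ω] in
lemma exists_of_hit_lt {X : ℝ≥0 → Ω → ℝ} {x : ℝ} {A : Set ℝ} {ω : Ω} {u : ℝ≥0}
    (h : hit X x A ω < u) : ∃ t, 0 < t ∧ t < u ∧ x + X t ω ∈ A := by
  obtain ⟨t, ht⟩ := iInf_lt_iff.1 h
  obtain ⟨h1, h2⟩ := iInf_lt_iff.1 ht
  exact ⟨t, h1.1, by exact_mod_cast h2, h1.2⟩

theorem clock (P : Measure Ω) (Z : ℝ≥0 → Ω → ℝ) (V ρ e τ : ℕ → ℝ) (M : ℕ → ℕ)
    (hM : ∀ k, 0 < M k) (hρ : ∀ k, 0 < ρ k) (hs : ∑' k, (M k : ℝ≥0∞)⁻¹ ≠ ∞)
    (h0 : ∀ k, 0 < τ k) (he : ∀ k, 0 ≤ e k)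
    (h1 : ∀ k, τ k + 4 * e k + (τ (k + 1) + 4 * e (k + 1)) < ρ (k + 1))
    (h2 : Tendsto (fun k => τ k + 4 * e k) atTop (𝓝 0))
    (h3 : ∀ k, (1 - 1 / M k) * ρ (k + 1) + τ (k + 1) ≤ τ k)
    (hZ : ∀ᵐ ω ∂P, ∀ T : ℕ, ∀ᶠ k in atTop, ∀ t : ℝ≥0, t ≤ T →
      ∃ m : ℤ, |V k * Z t ω - m * ρ k - t| ≤ e k) :
    ∃ A, MeasurableSet A ∧ Semipolar P Z A ∧ ∀ᵐ x : ℝ, ∀ᵐ ω ∂P, hit Z x A ω < ∞ := by
  obtain ⟨θ, s, s0, sm, sl, sa⟩ := exists_windows V ρ M hM hρ hs
  set C : ℕ → Set ℝ := fun K => ⋂ k, ⋂ (_ : K ≤ k), ⋃ m : ℤ,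
    (fun y => V k * y - θ k - m * ρ k) ⁻¹' Set.Icc (-e k) (τ k + e k) with hC
  have hCm : ∀ K, MeasurableSet (C K) := fun K => .iInter fun k => .iInter fun _ =>
    .iUnion fun m => measurableSet_Icc.preimage (by fun_prop)
  refine ⟨⋃ K, C K, .iUnion hCm, ⟨C, fun K => ⟨hCm K, fun x => ?_⟩, subset_rfl⟩, ?_⟩
  · refine measure_mono_null (fun ω hω => ?_) (ae_iff.1 hZ)
    intro hc
    obtain ⟨N, hN⟩ := eventually_atTop.1 (hc 1)
    have hw : 0 < τ (max K N) + 4 * e (max K N) := by linarith [h0 (max K N), he (max K N)]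
    have hh : hit Z x (C K) ω = 0 := hω
    obtain ⟨t, t0, t1, t2⟩ := exists_of_hit_lt (X := Z) (x := x) (A := C K) (ω := ω)
      (u := min 1 (NNReal.mk _ hw.le)) (by rw [hh]; exact_mod_cast lt_min one_pos hw)
    obtain ⟨u, -, u1, u2⟩ := exists_of_hit_lt (X := Z) (x := x) (A := C K) (ω := ω)
      (u := t) (by rw [hh]; exact_mod_cast t0)
    have t3 : t ≤ 1 := (t1.trans_le (min_le_left _ _)).le
    have t4 : (t : ℝ) < τ (max K N) + 4 * e (max K N) := t1.trans_le (min_le_right _ _)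
    have u3 : (u : ℝ) < t := u1
    have key : ∀ k, max K N ≤ k → (t : ℝ) - u ≤ τ k + 4 * e k := by
      intro k hk
      induction k, hk using Nat.le_induction with
      | base => linarith [u.2]
      | succ k hk ih =>
        have k1 : K ≤ k + 1 := by omega
        simp only [hC, Set.mem_iInter, Set.mem_iUnion, Set.mem_preimage, Set.mem_Icc] at t2 u2
        obtain ⟨m1, a1, a2⟩ := t2 _ k1
        obtain ⟨m2, a3, a4⟩ := u2 _ k1
        obtain ⟨m3, a5⟩ := hN (k + 1) (by omega) t (by simpa using t3)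
        obtain ⟨m4, a6⟩ := hN (k + 1) (by omega) u (by simpa using u1.le.trans t3)
        rw [abs_le] at a5 a6
        have a7 := h1 k
        have a8 := hρ (k + 1)
        rcases le_or_gt (m1 - m2 - m3 + m4) 0 with h | h
        · have : ((m1 : ℝ) - m2 - m3 + m4) ≤ 0 := by exact_mod_cast h
          nlinarith
        · have : (1 : ℝ) ≤ ((m1 : ℝ) - m2 - m3 + m4) := by exact_mod_cast h
          nlinarith
    have := ge_of_tendsto h2 (eventually_atTop.2 ⟨_, key⟩)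
    linarith
  · filter_upwards [sa] with x hx
    filter_upwards [hZ] with ω hω
    obtain ⟨N, hN⟩ := eventually_atTop.1 hx
    have b1 : ∀ k, N ≤ k → ∀ j, k ≤ j → s j x + τ j ≤ s k x + τ k := by
      intro k hk j hj
      induction j, hj using Nat.le_induction with
      | base => exact le_rfl
      | succ j hj ih => linarith [hN j (hk.trans hj), h3 j]
    have b2 : ∀ k, N ≤ k → ∀ j, s j x ≤ s k x + τ k := fun k hk j => by
      rcases le_total k j with h | h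
      · linarith [b1 k hk j h, h0 j]
      · linarith [sm x h, h0 k]
    have b3 : BddAbove (Set.range fun j => s j x) := ⟨_, Set.forall_mem_range.2 (b2 N le_rfl)⟩
    have b4 : ∀ k, s k x ≤ ⨆ j, s j x := fun k => le_ciSup b3 k
    have b5 : 0 < ⨆ j, s j x := by linarith [b4 0, s0 x]
    obtain ⟨N', hN'⟩ := eventually_atTop.1 (hω ⌈⨆ j, s j x⌉₊)
    refine (hit_le (t := NNReal.mk _ b5.le) b5 (Set.mem_iUnion.2 ⟨max N N' + 1, ?_⟩)).trans_lt
      ENNReal.coe_lt_top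
    simp only [hC, Set.mem_iInter, Set.mem_iUnion, Set.mem_preimage, Set.mem_Icc]
    intro k hk
    obtain ⟨k, rfl⟩ : ∃ j, k = j + 1 := ⟨k - 1, by omega⟩
    obtain ⟨m1, a1⟩ := sl k x
    obtain ⟨m2, a2⟩ := hN' (k + 1) (by omega) (NNReal.mk _ b5.le) (by
      rw [← NNReal.coe_le_coe]; exact Nat.le_ceil _)
    have a3 := ciSup_le (b2 (k + 1) (by omega))
    have a4 := b4 (k + 1)
    rw [abs_le, NNReal.coe_mk] at a2
    refine ⟨m1 + m2, ?_, ?_⟩ <;> push_cast <;> nlinarith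

end Pool.Agent.Lib.MP_9a0bf1_pr
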