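import Mathlib

/-! Real Levy processes and Hunt's hypothesis (H). -/

set_option autoImplicit false

open MeasureTheory ProbabilityTheory Filter Topology
open scoped ENNReal NNReal

namespace Pool.Agent.Lib.MP_9a0bf1_pr

variable {Ω : Type} [MeasurableSpace Ω]

/-- `X` is a Levy process on the real line: it starts at `0`, has stationary independent
increments, and all its paths are right-continuous with left limits. -/
structure IsLevy (P : Measure Ω) (X : ℝ≥0 → Ω → ℝ) : Prop where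
  meas : ∀ t, Measurable (X t)
  zero : ∀ ω, X 0 ω = 0
  indep : HasIndepIncrements X P
  stat : ∀ s t, IdentDistrib (fun ω => X (s + t) ω - X s ω) (X t) P P
  right : ∀ ω t, ContinuousWithinAt (fun s => X s ω) (Set.Ici t) t
  left : ∀ ω t, ∃ l, Tendsto (fun s => X s ω) (𝓝[<] t) (𝓝 l)

/-- The hitting time `inf {t > 0 : x + X t ∈ A}`, equal to `∞` if there is no such `t`. -/
noncomputable def hit (X : ℝ≥0 → Ω → ℝ) (x : ℝ) (A : Set ℝ) (ω : Ω) : ℝ≥0∞ :=
  ⨅ (t : ℝ≥0) (_ : 0 < t ∧ x + X t ω ∈ A), (t : ℝ≥0∞)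

/-- `A` is polar. -/
def Polar (P : Measure Ω) (X : ℝ≥0 → Ω → ℝ) (A : Set ℝ) : Prop :=
  ∀ x, P {ω | hit X x A ω < ∞} = 0

/-- `A` is thin. -/
def Thin (P : Measure Ω) (X : ℝ≥0 → Ω → ℝ) (A : Set ℝ) : Prop :=
  ∀ x, P {ω | hit X x A ω = 0} = 0

/-- `A` is contained in a countable union of thin Borel sets. -/
def Semipolar (P : Measure Ω) (X : ℝ≥0 → Ω → ℝ) (A : Set ℝ) : Prop :=
  ∃ B : ℕ → Set ℝ, (∀ n, MeasurableSet (B n) ∧ Thin P X (B n)) ∧ A ⊆ ⋃ n, B n

/-- Hunt's hypothesis (H): every semipolar Borel set is polar. -/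
def Hunt (P : Measure Ω) (X : ℝ≥0 → Ω → ℝ) : Prop :=
  ∀ A, MeasurableSet A → Semipolar P X A → Polar P X A

end Pool.Agent.Lib.MP_9a0bf1_pr
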