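import Pool.Agent.Lib.MP_9a0bf1_pr.W

/-! Regularity of the origin, and the counterexample. -/

set_option autoImplicit false

open MeasureTheory ProbabilityTheory Measure Filter Topology
open scoped ENNReal NNReal

namespace Pool.Agent.Lib.MP_9a0bf1_pr

lemma exists_zero {f : ℝ≥0 → ℝ} (hr : ∀ t, ContinuousWithinAt f (Set.Ici t) t)
    (hl : ∀ t, ∃ l, l ≤ f t ∧ Tendsto f (𝓝[<] t) (𝓝 l)) {s u : ℝ≥0} (hsu : s ≤ u)
    (hs : 0 < f s) (hu : f u ≤ 0) : ∃ t, s ≤ t ∧ t ≤ u ∧ f t = 0 := by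
  set S := {v | s ≤ v ∧ f v ≤ 0}
  have h1 : u ∈ S := ⟨hsu, hu⟩
  have h2 : IsGLB S (sInf S) := isGLB_csInf ⟨u, h1⟩ (OrderBot.bddBelow _)
  have h3 : f (sInf S) ≤ 0 := isClosed_Iic.mem_of_frequently_of_tendsto
    ((h2.frequently_mem ⟨u, h1⟩).mono fun v hv => hv.2) (hr _)
  have h4 : s ≤ sInf S := h2.2 fun v hv => hv.1
  have h5 : s < sInf S := h4.lt_of_ne fun h => (h ▸ h3).not_gt hs
  obtain ⟨l, h6, h7⟩ := hl (sInf S)
  have := nhdsLT_neBot_of_exists_lt ⟨s, h5⟩
  refine ⟨_, h4, h2.1 h1, h3.antisymm (le_trans (ge_of_tendsto h7 ?_) h6)⟩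
  filter_upwards [Ioo_mem_nhdsLT h5] with v hv
  exact (not_le.1 fun h => (h2.1 ⟨hv.1.le, h⟩).not_gt hv.2).le

/-- The conditions on the layers that force a sign change. -/
noncomputable def Bs (r : ℕ → ℝ≥0) (k j : ℕ) : Set Layer :=
  if j ≤ k then {x | NN (1 / r k : ℝ≥0) x = (0 : ℕ)} else {x | NN (1 / r j : ℝ≥0) x = (2 : ℕ)}

lemma measurableSet_Bs (r : ℕ → ℝ≥0) (k j : ℕ) : MeasurableSet (Bs r k j) := by
  unfold Bs
  split_ifs <;> exact measurableSet_eq_fun (measurable_NN _) measurable_const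

lemma prob_Bs {r : ℕ → ℝ≥0} (hr : Adm r) (k : ℕ) : ENNReal.ofReal (Real.exp (-2) * (Real.exp (-1) / 2))
    ≤ PW r (Set.pi (Finset.range (k + 2)) (Bs r k)) := by
  have h0 := hr.pos k
  have h1 := hr.pos (k + 1)
  rw [PW, infinitePi_pi _ fun j _ => measurableSet_Bs r k j, Finset.prod_range_succ,
    ENNReal.ofReal_mul (by positivity)]
  refine mul_le_mul' ?_ ?_
  · rw [Finset.prod_congr rfl fun j hj => by
      rw [Bs, if_pos (Nat.lt_succ_iff.1 (Finset.mem_range.1 hj)), prob_NN_eq],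
      ← ENNReal.ofReal_prod_of_nonneg fun j _ => by positivity]
    refine ENNReal.ofReal_le_ofReal ?_
    simp only [pow_zero, mul_one, Nat.factorial_zero, Nat.cast_one, div_one, ← Real.exp_sum,
      Real.exp_le_exp, Finset.sum_neg_distrib, neg_le_neg_iff, NNReal.coe_mul, ← Finset.sum_mul,
      NNReal.coe_div, NNReal.coe_one, Finset.sum_range_succ]
    have h2 := sum_L_le k (n := 10) (by norm_num)
    have h3 : ∑ j ∈ Finset.range k, (r j : ℝ) ≤ ∑ j ∈ Finset.range k, 4 * (L j : ℝ) ^ 10 :=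
      Finset.sum_le_sum fun j _ => by linarith [(hr j).2, pow_pos (L_pos j) 10]
    rw [mul_one_div, div_le_iff₀ h0]
    linarith [(hr k).1]
  · rw [Bs, if_neg (by omega), prob_NN_eq, mul_one_div_cancel (by exact_mod_cast h1.ne')]
    simp

lemma reg_W {r : ℕ → ℝ≥0} (hr : Adm r) : Reg (PW r) (W r) := by
  set E : ℕ → Set (ℕ → Layer) := fun k => Set.pi (Finset.range (k + 2)) (Bs r k) with hE
  have hEm : ∀ n, MeasurableSet (⋃ k, ⋃ (_ : n ≤ k), E k) := fun n => .iUnion fun k =>
    .iUnion fun _ => .pi (Finset.countable_toSet _) fun j _ => measurableSet_Bs r k j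
  refine ⟨(⋂ n, ⋃ k, ⋃ (_ : n ≤ k), E k) ∩ G r, (MeasurableSet.iInter hEm).inter
    (measurableSet_G r), ?_, fun ω hω u hu => ?_⟩
  · rw [Set.inter_comm, Measure.measure_inter_eq_of_ae (ae_G hr), Antitone.measure_iInter
      (fun a b h => Set.biUnion_subset_biUnion_left fun k hk => h.trans hk)
      (fun n => (hEm n).nullMeasurableSet) ⟨0, measure_ne_top _ _⟩]
    refine (lt_of_lt_of_le (ENNReal.ofReal_pos.2 (by positivity)) (le_iInf fun n =>
      (prob_Bs hr n).trans (measure_mono (Set.subset_biUnion_of_mem (u := E) le_rfl)))).ne'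
  · obtain ⟨N, hN⟩ := eventually_atTop.1 (tail_W hω.2 1)
    obtain ⟨M, hM⟩ := exists_pow_lt_of_lt_one (show (0 : ℝ) < u from hu) one_half_lt_one
    have h := Set.mem_iInter.1 hω.1 (max N M)
    simp only [Set.mem_iUnion, hE, Set.mem_pi, Finset.coe_range, Set.mem_Iio] at h
    obtain ⟨k, hk, h⟩ := h
    have p0 := hr.pos k
    have p1 := hr.pos (k + 1)
    have l0 := two_le_L k
    have l1 := two_le_L (k + 1)
    have q : ∀ j, (1 / r j : ℝ≥0) ≤ (1 : ℕ) := fun j => by
      rw [← NNReal.coe_le_coe]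
      push_cast
      rw [div_le_one (hr.pos j)]
      exact (one_le_pow₀ (one_le_two.trans (two_le_L j))).trans (hr j).1
    have a1 : ∀ j, j ≤ k → NN (1 / r k) (ω j) = 0 := fun j hj => by
      simpa [Bs, hj] using h j (by omega)
    have a2 : NN (1 / r (k + 1)) (ω (k + 1)) = 2 := by simpa [Bs] using h (k + 1) (by omega)
    refine (exists_zero (W_right r ω) (W_left r ω) (s := 1 / r (k + 1))
      (u := 1 / r k) ?_ ?_ ?_).elim fun t ⟨t1, t2, t3⟩ => ?_
    rotate_right
    · refine ⟨t, lt_of_lt_of_le (one_div_pos.2 (by exact_mod_cast p1)) t1, t2.trans ?_, t3⟩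
      rw [← NNReal.coe_le_coe]
      push_cast
      refine le_trans ?_ ((pow_le_pow_of_le_one (by norm_num) (by norm_num)
        (show M ≤ k by omega)).trans hM.le)
      have h1 := pow_mul_L k 0
      rw [one_div_pow]
      refine one_div_le_one_div_of_le (by positivity) (le_trans ?_ (hr k).1)
      refine le_trans ?_ (le_self_pow₀ (by linarith) (by norm_num))
      rw [add_zero] at h1
      nlinarith [two_le_L 0, pow_pos (two_pos : (0 : ℝ) < 2) k]
    · rw [← NNReal.coe_le_coe]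
      push_cast
      refine one_div_le_one_div_of_le p0 ((hr k).2.trans (le_trans ?_ (hr (k + 1)).1))
      have h1 := pow_le_pow_left₀ (by positivity) (L_step k) 10
      rw [mul_pow] at h1
      nlinarith [pow_pos (L_pos k) 10]
    · have h1 := (abs_le.1 (hN (k + 2) (by omega) _ (q (k + 1)))).1
      have h2 := sum_L_le (k + 1) one_ne_zero
      have h3 : -∑ j ∈ Finset.range (k + 1), tm r j (1 / r (k + 1)) ω ≤
          ∑ j ∈ Finset.range (k + 1), 4 * (L j : ℝ) ^ 1 * (1 / (2 * (L (k + 1) : ℝ) ^ 10)) := by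
        rw [← Finset.sum_neg_distrib]
        refine Finset.sum_le_sum fun j _ => ?_
        have b0 := L_pos j
        have b1 := NN_mono (ω j) (one_div_pos.2 p1).le
        have b2 : (r j : ℝ) * (1 / r (k + 1)) ≤ 2 * (L j : ℝ) ^ 10 * (1 / (L (k + 1) : ℝ) ^ 10) :=
          mul_le_mul (hr j).2 (one_div_le_one_div_of_le (by positivity) (hr _).1) (by positivity)
            (by positivity)
        simp only [NN_zero] at b1
        rw [tm, ← neg_div, div_le_iff₀ (by positivity)]
        push_cast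
        refine le_trans (by linarith) (b2.trans_eq ?_)
        field_simp
        ring
      rw [← Finset.sum_mul] at h3
      have h4 := h3.trans (mul_le_mul_of_nonneg_right h2 (by positivity))
      rw [Finset.sum_range_succ, tm, L_succ (k + 1)] at h1
      push_cast at h1
      rw [a2, mul_one_div_cancel p1.ne'] at h1
      generalize (L (k + 1) : ℝ) = l at *
      have h5 : l ^ 1 * (1 / (2 * l ^ 10)) + 2 / (l ^ 8) ^ 3 < (2 - 1) / l ^ 9 := by
        have := pow_le_pow_left₀ zero_le_two l1 15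
        field_simp
        linarith
      linarith
    · have h1 := (abs_le.1 (hN (k + 1) (by omega) _ (q k))).2
      have h3 : ∑ j ∈ Finset.range k, tm r j (1 / r k) ω ≤ 0 := Finset.sum_nonpos fun j hj => by
        rw [tm]
        push_cast
        rw [a1 j (Finset.mem_range.1 hj).le, zero_sub]
        exact div_nonpos_of_nonpos_of_nonneg (neg_nonpos.2 (by positivity)) (by positivity)
      rw [Finset.sum_range_succ, tm, L_succ k] at h1
      push_cast at h1
      rw [a1 k le_rfl, mul_one_div_cancel p0.ne'] at h1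
      generalize (L k : ℝ) = l at *
      have h5 : (0 - 1) / l ^ 9 + 2 / (l ^ 8) ^ 3 ≤ 0 := by
        have := pow_le_pow_left₀ zero_le_two l0 15
        field_simp
        linarith
      linarith

/-- The drifts. -/
noncomputable def D : ℕ → ℝ≥0
  | 0 => 0
  | k + 1 => 1 / L (k + 1)

/-- The rates. -/
noncomputable def rate (σ k : ℕ) : ℝ≥0 := L k ^ 10 + D (k + σ) * L k ^ 9

lemma adm_rate (σ : ℕ) : Adm (rate σ) := fun k => by
  have h0 := two_le_L k
  have h1 : ∀ j, (D j : ℝ) ≤ 1 := fun j => by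
    cases j with
    | zero => simp [D]
    | succ j =>
      simp only [D, NNReal.coe_div, NNReal.coe_one, NNReal.coe_natCast]
      exact (div_le_one (L_pos _)).2 (one_le_two.trans (two_le_L _))
  simp only [rate, NNReal.coe_add, NNReal.coe_pow, NNReal.coe_natCast, NNReal.coe_mul]
  have h2 := h1 (k + σ)
  have h3 : (0 : ℝ) < L k ^ 9 := by positivity
  have h4 : (0 : ℝ) ≤ D (k + σ) := (D _).2
  rw [pow_succ _ 9]
  constructor <;> nlinarith

lemma sum_tm (t : ℝ≥0) (x y : ℕ → Layer) (K : ℕ) : ∃ m : ℤ,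
    ∑ j ∈ Finset.range (K + 1), tm (rate 0) j t x - ∑ j ∈ Finset.range (K + 1), tm (rate 1) j t y =
      m / (L K : ℝ) ^ 9 + D (K + 1) * t := by
  have h : ∀ j, ∃ m : ℤ, tm (rate 0) j t x - tm (rate 1) j t y =
      m / (L j : ℝ) ^ 9 + (D (j + 1) - D j) * t := fun j => by
    obtain ⟨a, ha⟩ := NN_int t (x j)
    obtain ⟨b, hb⟩ := NN_int t (y j)
    have := L_pos j
    refine ⟨a - b, ?_⟩
    simp only [tm, rate, ha, hb, add_zero]
    push_cast
    field_simp
    ring
  induction K with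
  | zero => simpa [D] using h 0
  | succ K ih =>
    obtain ⟨a, ha⟩ := ih
    obtain ⟨b, hb⟩ := h (K + 1)
    have := L_pos K
    refine ⟨a * L K ^ 63 + b, ?_⟩
    have h1 : (a : ℝ) / (L K : ℝ) ^ 9 = a * L K ^ 63 / (L (K + 1) : ℝ) ^ 9 := by
      rw [L_succ]
      field_simp
    rw [Finset.sum_range_succ _ (K + 1), Finset.sum_range_succ _ (K + 1)]
    push_cast
    rw [add_div, ← h1]
    linarith

theorem clock_L {Ω : Type} [MeasurableSpace Ω] (P : Measure Ω) (Z : ℝ≥0 → Ω → ℝ)
    (hZ : ∀ᵐ ω ∂P, ∀ T : ℕ, ∀ᶠ k in atTop, ∀ t : ℝ≥0, t ≤ T → ∃ m : ℤ,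
      |Z t ω - (m / (L k : ℝ) ^ 9 + D (k + 1) * t)| ≤ 4 / (L (k + 1) : ℝ) ^ 3) :
    ∃ A, MeasurableSet A ∧ Semipolar P Z A ∧ ∀ᵐ x : ℝ, ∀ᵐ ω ∂P, hit Z x A ω < ∞ := by
  refine clock P Z (fun k => L (k + 1)) (fun k => 1 / L k) (fun k => 4 / (L (k + 1) : ℝ) ^ 2)
    (fun k => (1 - 1 / (2 * L k)) / L (k + 1)) L (fun k => by exact_mod_cast L_pos k)
    (fun k => one_div_pos.2 (L_pos k)) ?_ (fun k => ?_) (fun k => by positivity) (fun k => ?_) ?_
    (fun k => ?_) ?_
  · convert (summable_inv_L 0 one_ne_zero).tsum_ofReal_ne_top using 3 with k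
    simp [ENNReal.ofReal_inv_of_pos (L_pos k)]
  · have := two_le_L k
    refine div_pos (sub_pos.2 ?_) (L_pos _)
    rw [div_lt_one (by positivity)]
    linarith
  · have h := two_le_L k
    simp only [L_succ]
    generalize (L k : ℝ) = l at *
    have h1 : (1 - 1 / (2 * l ^ 8)) / (l ^ 8) ^ 8 ≤ 1 / (l ^ 8) ^ 2 :=
      div_le_div₀ zero_le_one (sub_le_self _ (by positivity)) (by positivity)
        (pow_le_pow_right₀ (one_le_pow₀ (by linarith)) (by norm_num))
    have h2 : 4 / ((l ^ 8) ^ 8) ^ 2 ≤ 1 / (l ^ 8) ^ 2 := by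
      have := pow_le_pow_left₀ zero_le_two h 2
      have h3 := pow_le_pow_right₀ (show 1 ≤ l by linarith) (show 2 ≤ 112 by norm_num)
      field_simp
      linarith
    have h3 : (1 - 1 / (2 * l)) / l ^ 8 + 21 * (1 / (l ^ 8) ^ 2) < 1 / l ^ 8 := by
      have := pow_le_pow_left₀ zero_le_two h 7
      field_simp
      linarith
    have h4 : 4 / (l ^ 8) ^ 2 = 4 * (1 / (l ^ 8) ^ 2) := by ring
    linarith
  · have h1 := (summable_inv_L 1 one_ne_zero).tendsto_atTop_zero
    have h2 := ((summable_inv_L 1 two_ne_zero).tendsto_atTop_zero).const_mul 16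
    refine squeeze_zero (fun k => ?_) (fun k => ?_) (by simpa using h1.add h2)
    · have := two_le_L k
      refine add_nonneg (div_nonneg (sub_nonneg.2 ?_) (L_pos _).le) (by positivity)
      rw [div_le_one (by positivity)]
      linarith
    · have := L_pos k
      refine add_le_add ?_ (le_of_eq (by ring))
      rw [inv_eq_one_div]
      exact div_le_div_of_nonneg_right (sub_le_self _ (by positivity)) (L_pos _).le
  · have h := two_le_L k
    simp only [L_succ]
    generalize (L k : ℝ) = l at *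
    have h1 : (1 - 1 / (2 * l ^ 8)) / (l ^ 8) ^ 8 ≤ 1 / (2 * l ^ 9) := by
      refine div_le_div₀ zero_le_one (sub_le_self _ (by positivity)) (by positivity) ?_
      have h3 := pow_le_pow_right₀ (show 1 ≤ l by linarith) (show 10 ≤ 8 * 8 by norm_num)
      rw [← pow_mul]
      nlinarith [pow_pos (show 0 < l by linarith) 9]
    refine (add_le_add_right h1 _).trans_eq ?_
    field_simp
    ring
  · filter_upwards [hZ] with ω hω T
    filter_upwards [hω T] with k hk t ht
    obtain ⟨m, hm⟩ := hk t ht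
    have := L_pos k
    have h1 := mul_le_mul_of_nonneg_left hm (L_pos (k + 1)).le
    rw [← abs_of_pos (L_pos (k + 1)), ← abs_mul, abs_of_pos (L_pos (k + 1))] at h1
    refine ⟨m, (le_of_eq ?_).trans (h1.trans_eq ?_)⟩
    · congr 1
      simp only [D, NNReal.coe_div, NNReal.coe_one, NNReal.coe_natCast, L_succ]
      field_simp
      ring
    · have := L_pos (k + 1)
      field_simp

theorem main : ∃ (Ω : Type) (_ : MeasurableSpace Ω) (P : Measure Ω) (_ : IsProbabilityMeasure P)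
    (X Y : ℝ≥0 → Ω → ℝ), IsLevy P X ∧ IsLevy P Y ∧
      IndepFun (fun ω t => X t ω) (fun ω t => Y t ω) P ∧ Hunt P X ∧ Hunt P Y ∧
      ∃ A, MeasurableSet A ∧ Semipolar P (X + Y) A ∧ ¬Polar P (X + Y) A ∧
        ∀ᵐ x : ℝ, ∀ᵐ ω ∂P, hit (X + Y) x A ω < ∞ := by
  have h0 := adm_rate 0
  have h1 := adm_rate 1
  refine ⟨_, _, (PW (rate 0)).prod (PW (rate 1)), inferInstance, fun t ω => W (rate 0) t ω.1,
    fun t ω => -W (rate 1) t ω.2, (isLevy_W h0).comp measurePreserving_fst,
    (isLevy_W h1).neg.comp measurePreserving_snd, indepFun_prod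
      (measurable_pi_lambda (fun ω t => W (rate 0) t ω) (measurable_W _))
      (measurable_pi_lambda (fun ω t => -W (rate 1) t ω) fun t => (measurable_W _ t).neg),
    ((reg_W h0).comp measurePreserving_fst).hunt,
    ((reg_W h1).neg.comp measurePreserving_snd).hunt, ?_⟩
  obtain ⟨A, a1, a2, a3⟩ := clock_L ((PW (rate 0)).prod (PW (rate 1)))
    ((fun t ω => W (rate 0) t ω.1) + fun t ω => -W (rate 1) t ω.2) (by
      filter_upwards [quasiMeasurePreserving_fst.ae (ae_G h0),
        quasiMeasurePreserving_snd.ae (ae_G h1)] with ω b0 b1 T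
      filter_upwards [(tendsto_add_atTop_nat 1).eventually (tail_W b0 T),
        (tendsto_add_atTop_nat 1).eventually (tail_W b1 T)] with k c0 c1 t ht
      obtain ⟨m, hm⟩ := sum_tm t ω.1 ω.2 k
      have d0 := abs_le.1 (c0 t ht)
      have d1 := abs_le.1 (c1 t ht)
      refine ⟨m, ?_⟩
      rw [← hm, abs_le, show (4 : ℝ) = 2 + 2 by norm_num, add_div]
      simp only [Pi.add_apply]
      constructor <;> linarith)
  refine ⟨A, a1, a2, fun h => ?_, a3⟩
  obtain ⟨x, hx⟩ := a3.exists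
  obtain ⟨ω, h2, h3⟩ := (hx.and (measure_eq_zero_iff_ae_notMem.1 (h x))).exists
  exact h3 h2

end Pool.Agent.Lib.MP_9a0bf1_pr
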