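import Pool.Agent.Lib.MP_9a0bf1_pr.Defs

/-! A construction of the Poisson process. -/

set_option autoImplicit false

open MeasureTheory ProbabilityTheory Measure Filter Topology Complex
open scoped ENNReal NNReal

namespace Pool.Agent.Lib.MP_9a0bf1_pr

lemma integral_prod_eval {ι : Type*} {E : ι → Type*} [∀ i, MeasurableSpace (E i)]
    (m : ∀ i, Measure (E i)) [∀ i, IsProbabilityMeasure (m i)] (J : Finset ι)
    {f : ∀ i, E i → ℂ} (hf : ∀ i, Measurable (f i)) :
    ∫ x, ∏ j ∈ J, f j (x j) ∂(infinitePi m) = ∏ j ∈ J, ∫ t, f j t ∂(m j) := by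
  have h := (iIndepFun_infinitePi (P := m) hf).restrict J
  have h2 := h.integral_fun_prod_eq_prod_integral
    fun i => ((hf i).comp (measurable_pi_apply (i : ι))).aestronglyMeasurable
  simp only [Finset.restrict] at h2
  rw [← Finset.prod_coe_sort J fun j => ∫ t, f j t ∂(m j)]
  simp_rw [← Finset.prod_coe_sort J fun j => f j (_ : E j)]
  refine h2.trans (Finset.prod_congr rfl fun i _ => ?_)
  rw [← (measurePreserving_eval_infinitePi m i).map_eq, integral_map
    (measurable_pi_apply _).aemeasurable (hf i).aestronglyMeasurable]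

/-- A number of points and their positions. -/
abbrev Cell := ℕ × (ℕ → ℝ)

/-- Uniform law on `(n, n+1]`. -/
noncomputable def un (n : ℕ) : Measure ℝ := volume.restrict (Set.Ioc (n : ℝ) (n + 1))

instance (n : ℕ) : IsProbabilityMeasure (un n) := ⟨by simp [un]⟩

/-- Law of a cell. -/
noncomputable def cell (r : ℝ≥0) (n : ℕ) : Measure Cell :=
  (poissonMeasure r).prod (infinitePi fun _ => un n)

instance (r : ℝ≥0) (n : ℕ) : IsProbabilityMeasure (cell r n) := by unfold cell; infer_instance

/-- All cells. -/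
abbrev Layer := ℕ → Cell

/-- Law of all cells. -/
noncomputable def layer (r : ℝ≥0) : Measure Layer := infinitePi (cell r)

instance (r : ℝ≥0) : IsProbabilityMeasure (layer r) := by unfold layer; infer_instance

lemma measurable_cell_prod {g : ℝ → ℂ} (hg : Measurable g) :
    Measurable fun x : Cell => ∏ i ∈ Finset.range x.1, g (x.2 i) :=
  measurable_from_prod_countable_right fun n =>
    Finset.measurable_prod (Finset.range n) fun i _ => hg.comp (measurable_pi_apply i)

lemma campbell (r : ℝ≥0) (n : ℕ) {g : ℝ → ℂ} (hg : Measurable g) (h1 : ∀ p, ‖g p‖ ≤ 1) :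
    ∫ x, ∏ i ∈ Finset.range x.1, g (x.2 i) ∂(cell r n) = cexp (r * (∫ p, g p ∂(un n) - 1)) := by
  rw [cell, integral_prod _ ((integrable_const (1 : ℝ)).mono' 
    (measurable_cell_prod hg).aestronglyMeasurable (Eventually.of_forall fun x => by
      rw [norm_prod]
      exact Finset.prod_le_one (fun _ _ => norm_nonneg _) fun _ _ => h1 _))]
  simp only [integral_prod_eval (fun _ : ℕ => un n) _ fun _ => hg, Finset.prod_const,
    Finset.card_range]
  rw [integral_poissonMeasure r]
  generalize ∫ p, g p ∂(un n) = z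
  calc _ = ∑' a : ℕ, (Real.exp (-r) : ℂ) * ((r * z) ^ a / a.factorial) := by
        congr with a
        rw [real_smul, mul_pow]
        push_cast
        ring
    _ = _ := by
        rw [tsum_mul_left, (NormedSpace.expSeries_div_hasSum_exp (r * z)).tsum_eq, exp_eq_exp_ℂ,
          ofReal_exp, ← exp_eq_exp_ℂ, ← Complex.exp_add]
        push_cast
        ring_nf

/-- Indicator of `n < p ≤ t`. -/
noncomputable def ch (n : ℕ) (t p : ℝ) : ℝ := if n < p ∧ p ≤ t then 1 else 0

lemma measurable_ch (n : ℕ) (t : ℝ) : Measurable (ch n t) :=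
  Measurable.ite (measurableSet_Ioc (a := (n : ℝ)) (b := t)) measurable_const measurable_const

lemma ch_mono (n : ℕ) (p : ℝ) : Monotone fun t => ch n t p := by
  intro s t h
  simp only [ch]
  split_ifs with h1 h2
  · exact le_rfl
  · exact (h2 ⟨h1.1, h1.2.trans h⟩).elim
  · exact zero_le_one
  · exact le_rfl

lemma integral_ch (n : ℕ) (t : ℝ) : ∫ p, ch n t p ∂(un n) = max (min t (n + 1) - n) 0 := by
  have : ch n t = (Set.Ioc (n : ℝ) t).indicator 1 := by
    ext p; simp [ch, Set.indicator]
  rw [this, integral_indicator_one measurableSet_Ioc, un, measureReal_restrict_apply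
    measurableSet_Ioc, Set.Ioc_inter_Ioc, max_self, Real.volume_real_Ioc]

lemma sum_integral_ch {t : ℝ} (ht : 0 ≤ t) (M : ℕ) :
    ∑ n ∈ Finset.range M, ∫ p, ch n t p ∂(un n) = min t M := by
  induction M with
  | zero => simp [ht]
  | succ M ih =>
    rw [Finset.sum_range_succ, ih, integral_ch]
    push_cast
    simp only [min_def, max_def]
    split_ifs <;> linarith

/-- Points up to time `t` among the first `M` cells. -/
noncomputable def NM (M : ℕ) (t : ℝ) (x : Layer) : ℝ :=
  ∑ n ∈ Finset.range M, ∑ i ∈ Finset.range (x n).1, ch n t ((x n).2 i)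

/-- The Poisson process. -/
noncomputable def NN (t : ℝ) (x : Layer) : ℝ := NM ⌈t⌉₊ t x

lemma NN_eq {t : ℝ} {M : ℕ} (h : t ≤ M) (x : Layer) : NN t x = NM M t x := by
  refine Finset.sum_subset (Finset.range_subset_range.2 (Nat.ceil_le.2 h)) fun n _ hn => ?_
  refine Finset.sum_eq_zero fun i _ => if_neg fun h => hn (Finset.mem_range.2 ?_)
  exact Nat.lt_ceil.2 (h.1.trans_le h.2)

lemma measurable_NN (t : ℝ) : Measurable (NN t) := by
  unfold NN NM
  exact Finset.measurable_sum _ fun n _ =>
    (measurable_from_prod_countable_right (f := fun x : Cell =>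
      ∑ i ∈ Finset.range x.1, ch n t (x.2 i)) fun m => Finset.measurable_sum (Finset.range m)
        fun i _ => (measurable_ch n t).comp (measurable_pi_apply i)).comp (measurable_pi_apply n)

lemma NN_zero (x : Layer) : NN 0 x = 0 := by simp [NN, NM]

lemma NN_mono (x : Layer) : Monotone fun t => NN t x := by
  intro s t h
  simp only
  rw [NN_eq (h.trans (Nat.le_ceil t)), NN]
  exact Finset.sum_le_sum fun n _ => Finset.sum_le_sum fun i _ => ch_mono n _ h

lemma NN_int (t : ℝ) (x : Layer) : ∃ m : ℤ, NN t x = m := by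
  refine ⟨∑ n ∈ Finset.range ⌈t⌉₊, ∑ i ∈ Finset.range (x n).1,
    if n < (x n).2 i ∧ (x n).2 i ≤ t then 1 else 0, ?_⟩
  simp only [NN, NM, ch]
  push_cast
  rfl

lemma NN_right (x : Layer) (t : ℝ) : ContinuousWithinAt (fun s => NN s x) (Set.Ici t) t := by
  have h1 : ∀ᶠ s in 𝓝[Set.Ici t] t, NN s x = NM (⌈t⌉₊ + 1) s x := by
    filter_upwards [mem_nhdsWithin_of_mem_nhds (Iio_mem_nhds (lt_add_one t))] with s hs
    refine NN_eq (hs.le.trans ?_) x
    push_cast
    linarith [Nat.le_ceil t]
  refine ContinuousWithinAt.congr_of_eventuallyEq ?_ h1 (NN_eq (by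
    push_cast; linarith [Nat.le_ceil t]) x)
  refine tendsto_finsetSum _ fun n _ => tendsto_finsetSum _ fun i _ => ?_
  generalize (x n).2 i = p
  refine tendsto_const_nhds.congr' ?_
  rcases le_or_gt p t with h | h
  · filter_upwards [self_mem_nhdsWithin] with s hs
    simp [ch, h, h.trans hs]
  · filter_upwards [mem_nhdsWithin_of_mem_nhds (Iio_mem_nhds h)] with s hs
    simp [ch, h.not_ge, (show s < p from hs).not_ge]

lemma step_exp {m : ℕ} {t : Fin (m + 1) → ℝ} (ht : Monotone t) (θ : Fin m → ℝ) (n : ℕ) (p : ℝ) :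
    cexp ((∑ j, θ j * (ch n (t j.succ) p - ch n (t j.castSucc) p) : ℝ) * I) =
      1 + ∑ j, (cexp (θ j * I) - 1) * (ch n (t j.succ) p - ch n (t j.castSucc) p : ℝ) := by
  by_cases h : ∃ j : Fin m, n < p ∧ t j.castSucc < p ∧ p ≤ t j.succ
  · obtain ⟨j, h1, h2, h3⟩ := h
    have h4 : ∀ i, i ≠ j → ch n (t i.succ) p - ch n (t i.castSucc) p = 0 := fun i hi => by
      rcases lt_or_gt_of_ne hi with h | h
      · have h5 : t i.succ < p := (ht (Fin.succ_le_castSucc_iff.2 h)).trans_lt h2
        have h6 : t i.castSucc < p := (ht i.castSucc_lt_succ.le).trans_lt h5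
        simp [ch, h5.not_ge, h6.not_ge]
      · have h5 : p ≤ t i.castSucc := h3.trans (ht (Fin.succ_le_castSucc_iff.2 h))
        have h6 : p ≤ t i.succ := h5.trans (ht i.castSucc_lt_succ.le)
        simp [ch, h5, h6]
    rw [Finset.sum_eq_single j (fun i _ hi => by rw [h4 i hi, mul_zero]) (by simp),
      Finset.sum_eq_single j (fun i _ hi => by rw [h4 i hi]; simp) (by simp)]
    simp [ch, h1, h2.not_ge, h3]
  · have h4 : ∀ i : Fin m, ch n (t i.succ) p - ch n (t i.castSucc) p = 0 := fun i => by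
      rw [sub_eq_zero]
      refine if_congr ⟨fun h1 => ⟨h1.1, not_lt.1 fun h2 => h ⟨i, h1.1, h2, h1.2⟩⟩,
        fun h1 => ⟨h1.1, h1.2.trans (ht i.castSucc_lt_succ.le)⟩⟩ rfl rfl
    simp [h4]

lemma integrable_ch (n : ℕ) (t : ℝ) : Integrable (ch n t) (un n) :=
  (integrable_const (1 : ℝ)).mono' (measurable_ch n t).aestronglyMeasurable
    (Eventually.of_forall fun p => by simp only [ch]; split_ifs <;> simp)

lemma cf_NN (r : ℝ≥0) {m : ℕ} {t : Fin (m + 1) → ℝ} (ht : Monotone t) (h0 : ∀ j, 0 ≤ t j)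
    (θ : Fin m → ℝ) :
    ∫ x, cexp ((∑ j, θ j * (NN (t j.succ) x - NN (t j.castSucc) x) : ℝ) * I) ∂(layer r) =
      cexp (∑ j, (t j.succ - t j.castSucc : ℝ) * (r * (cexp (θ j * I) - 1))) := by
  set M := ⌈t (Fin.last m)⌉₊
  have hM : ∀ j, t j ≤ M := fun j => (ht j.le_last).trans (Nat.le_ceil _)
  set g : ℕ → ℝ → ℂ := fun n p =>
    cexp ((∑ j, θ j * (ch n (t j.succ) p - ch n (t j.castSucc) p) : ℝ) * I) with hg
  have hgm : ∀ n, Measurable (g n) := fun n =>
    (((Finset.measurable_sum _ fun j _ => ((measurable_ch _ _).sub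
      (measurable_ch _ _)).const_mul _).complex_ofReal).mul_const _).cexp
  have h1 : ∀ x : Layer, cexp ((∑ j, θ j * (NN (t j.succ) x - NN (t j.castSucc) x) : ℝ) * I) =
      ∏ n ∈ Finset.range M, ∏ i ∈ Finset.range (x n).1, g n ((x n).2 i) := fun x => by
    simp only [hg, ← Complex.exp_sum, ← Finset.sum_mul, ← ofReal_sum, NN_eq (hM _), NM]
    congr 3
    simp only [← Finset.sum_sub_distrib, Finset.mul_sum]
    rw [Finset.sum_comm]
    exact Finset.sum_congr rfl fun n _ => Finset.sum_comm
  simp_rw [h1]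
  rw [layer, integral_prod_eval (cell r) _ fun n => measurable_cell_prod (hgm n)]
  simp_rw [campbell r _ (hgm _) fun p => (norm_exp_ofReal_mul_I _).le, ← Complex.exp_sum]
  congr 1
  have h2 : ∀ n, ∫ p, g n p ∂(un n) - 1 = ∑ j, (cexp (θ j * I) - 1) *
      (∫ p, ch n (t j.succ) p ∂(un n) - ∫ p, ch n (t j.castSucc) p ∂(un n) : ℝ) := fun n => by
    have hi : ∀ j : Fin m, Integrable (fun p => (cexp (θ j * I) - 1) *
        (ch n (t j.succ) p - ch n (t j.castSucc) p : ℝ)) (un n) := fun j =>
      (((integrable_ch _ _).sub (integrable_ch _ _)).ofReal).const_mul _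
    simp only [hg, step_exp ht]
    rw [integral_add (integrable_const _) (integrable_finsetSum _ fun j _ => hi j),
      integral_finsetSum _ fun j _ => hi j]
    simp only [integral_const, probReal_univ, one_smul, add_sub_cancel_left]
    refine Finset.sum_congr rfl fun j _ => ?_
    rw [integral_const_mul, integral_complex_ofReal,
      integral_sub (integrable_ch _ _) (integrable_ch _ _)]
  simp_rw [h2, Finset.mul_sum]
  rw [Finset.sum_comm]
  refine Finset.sum_congr rfl fun j _ => ?_
  rw [← Finset.mul_sum, ← Finset.mul_sum, ← ofReal_sum, Finset.sum_sub_distrib,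
    sum_integral_ch (h0 _), sum_integral_ch (h0 _), min_eq_left (hM _), min_eq_left (hM _)]
  ring

lemma map_NN (r s : ℝ≥0) :
    (layer r).map (NN s) = (poissonMeasure (r * s)).map (Nat.cast : ℕ → ℝ) := by
  have := isProbabilityMeasure_map (μ := layer r) (measurable_NN s).aemeasurable
  refine Measure.ext_of_charFun (funext fun θ => ?_)
  rw [charFun_map_cast_poissonMeasure, charFun_apply_real,
    integral_map (measurable_NN s).aemeasurable (by fun_prop)]
  have h := cf_NN r (m := 1) (t := ![0, s]) (by simp [Fin.monotone_iff_le_succ])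
    (by simp [Fin.forall_fin_two]) fun _ => θ
  simp only [Finset.univ_unique, Fin.default_eq_zero, Finset.sum_singleton, Fin.succ_zero_eq_one,
    Matrix.cons_val_one, Matrix.cons_val_zero, Fin.castSucc_zero, NN_zero, sub_zero] at h
  push_cast at h ⊢
  rw [h]
  congr 1
  ring

lemma prob_NN (r s : ℝ≥0) {B : Set ℝ} (hB : MeasurableSet B) :
    layer r {x | NN s x ∈ B} = poissonMeasure (r * s) {n | (n : ℝ) ∈ B} := by
  have h := congrArg (· B) (map_NN r s)
  simp only [map_apply (measurable_NN s) hB, map_apply (measurable_of_countable _) hB] at h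
  exact h

lemma poisson_mgf (m : ℝ≥0) (θ : ℝ) :
    ∫⁻ n, ENNReal.ofReal (Real.exp (θ * n)) ∂(poissonMeasure m) =
      ENNReal.ofReal (Real.exp (m * (Real.exp θ - 1))) := by
  rw [lintegral_countable']
  simp_rw [poissonMeasure_singleton]
  have h := (NormedSpace.expSeries_div_hasSum_exp (m * Real.exp θ)).mul_left (Real.exp (-m))
  rw [← Real.exp_eq_exp_ℝ, ← Real.exp_add] at h
  rw [show (m : ℝ) * (Real.exp θ - 1) = -m + m * Real.exp θ by ring, ← h.tsum_eq,
    ENNReal.ofReal_tsum_of_nonneg (fun n => by positivity) h.summable]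
  refine tsum_congr fun n => ?_
  rw [← ENNReal.ofReal_mul (by positivity), mul_comm θ, Real.exp_nat_mul, mul_pow]
  congr 1
  ring

lemma poisson_tail (m : ℝ≥0) {θ : ℝ} (hθ : |θ| ≤ 1) (η : ℝ) :
    poissonMeasure m {n | η ≤ θ * (n - m)} ≤ ENNReal.ofReal (Real.exp (m * θ ^ 2 - η)) := by
  calc _ ≤ ∫⁻ n, ENNReal.ofReal (Real.exp (-(θ * m) - η)) * ENNReal.ofReal (Real.exp (θ * n))
        ∂(poissonMeasure m) := by
        rw [← lintegral_indicator_one MeasurableSet.of_discrete]
        refine lintegral_mono fun n => Set.indicator_apply_le' (fun h => ?_) fun _ => zero_le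
        rw [← ENNReal.ofReal_mul (by positivity), ← Real.exp_add, Pi.one_apply,
          ← ENNReal.ofReal_one]
        exact ENNReal.ofReal_le_ofReal (Real.one_le_exp (by simp at h; linarith))
    _ ≤ _ := by
        rw [lintegral_const_mul _ (measurable_of_countable _), poisson_mgf,
          ← ENNReal.ofReal_mul (by positivity), ← Real.exp_add]
        refine ENNReal.ofReal_le_ofReal (Real.exp_le_exp.2 ?_)
        have h := (abs_le.1 (Real.abs_exp_sub_one_sub_id_le hθ)).2
        nlinarith [m.2]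

lemma tail_NN (r s : ℝ≥0) {θ : ℝ} (h0 : 0 ≤ θ) (h1 : θ ≤ 1) (η : ℝ) :
    layer r {x | η ≤ |NN s x - r * s|} ≤
      2 * ENNReal.ofReal (Real.exp (r * s * θ ^ 2 - θ * η)) := by
  refine (prob_NN r s (B := {y | η ≤ |y - r * s|})
    (measurableSet_le measurable_const (by fun_prop))).trans_le ?_
  have h2 := poisson_tail (r * s) (θ := θ) (by rwa [abs_of_nonneg h0]) (θ * η)
  have h3 := poisson_tail (r * s) (θ := -θ) (by rwa [abs_neg, abs_of_nonneg h0]) (θ * η)
  rw [neg_sq] at h3
  rw [two_mul]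
  refine le_trans (le_trans (measure_mono fun n hn => ?_) (measure_union_le _ _))
    (add_le_add h2 h3)
  simp only [Set.mem_ofPred_eq, Set.mem_union, NNReal.coe_mul] at hn ⊢
  rcases le_abs.1 hn with h | h
  · exact Or.inl (mul_le_mul_of_nonneg_left h h0)
  · exact Or.inr (by nlinarith [mul_le_mul_of_nonneg_left h h0])

lemma prob_NN_eq (r s : ℝ≥0) (m : ℕ) : layer r {x | NN s x = m} =
    ENNReal.ofReal (Real.exp (-(r * s : ℝ≥0)) * (r * s : ℝ≥0) ^ m / m.factorial) := by
  rw [← poissonMeasure_singleton]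
  refine (prob_NN r s (B := {(m : ℝ)}) (measurableSet_singleton _)).trans ?_
  congr 1
  ext n
  simp

lemma prob_NN_ne (r s : ℝ≥0) : layer r {x | NN s x ≠ 0} ≤ ENNReal.ofReal (r * s) := by
  have h := prob_NN_eq r s 0
  have h2 := prob_compl_eq_one_sub (μ := layer r) (s := {x | NN s x = 0})
    (measurableSet_eq_fun (measurable_NN s) measurable_const)
  simp only [Nat.cast_zero, pow_zero, mul_one, Nat.factorial_zero, Nat.cast_one, div_one] at h
  rw [h] at h2
  refine h2.trans_le (tsub_le_iff_right.2 ?_)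
  rw [← ENNReal.ofReal_add (by positivity) (by positivity), ← ENNReal.ofReal_one]
  refine ENNReal.ofReal_le_ofReal ?_
  have := Real.add_one_le_exp (-((r * s : ℝ≥0) : ℝ))
  push_cast at this ⊢
  linarith

end Pool.Agent.Lib.MP_9a0bf1_pr
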