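import Pool.Agent.Lib.MP_9a0bf1_pr.Main

/-! Compound Poisson layers with uniform marks. -/

set_option autoImplicit false

open MeasureTheory ProbabilityTheory Measure Filter Topology Complex
open scoped ENNReal NNReal

namespace Pool.Agent.Lib.MP_9a0bf1_pr.T96

/-- Resampling one coordinate. -/
lemma pi_le {ι E : Type} [DecidableEq ι] [MeasurableSpace E] (m : ι → Measure E)
    [∀ i, IsProbabilityMeasure (m i)] (j : ι) {S : Set (ι → E)} (hS : MeasurableSet S) {c : ℝ≥0∞}
    (h : ∀ x, m j {z | Function.update x j z ∈ S} ≤ c) : infinitePi m S ≤ c := by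
  have hu : Measurable fun p : (ι → E) × E => Function.update p.1 j p.2 := measurable_update'
  have h1 : ((infinitePi m).prod (m j)).map (fun p => Function.update p.1 j p.2) =
      infinitePi m := by
    refine eq_infinitePi m fun s t ht => ?_
    rw [map_apply hu (.pi s.countable_toSet fun i _ => ht i)]
    have h2 : (fun p : (ι → E) × E => Function.update p.1 j p.2) ⁻¹' Set.pi s t =
        (Set.pi (s.erase j) t) ×ˢ (if j ∈ s then t j else Set.univ) := by
      ext ⟨x, z⟩
      simp only [Set.mem_preimage, Set.mem_pi, Finset.mem_coe, Set.mem_prod, Finset.mem_erase]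
      constructor
      · intro h
        refine ⟨fun i hi => by simpa [hi.1] using h i hi.2, ?_⟩
        split_ifs with hj
        · simpa using h j hj
        · trivial
      · rintro ⟨h3, h4⟩ i hi
        by_cases hij : i = j
        · subst hij
          simpa [hi] using h4
        · simpa [hij] using h3 i ⟨hij, hi⟩
    rw [h2, prod_prod, infinitePi_pi _ fun i _ => ht i]
    split_ifs with hj
    · exact Finset.prod_erase_mul s (fun i => m i (t i)) hj
    · rw [measure_univ, mul_one, Finset.erase_eq_of_notMem hj]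
  rw [← h1, map_apply hu hS, prod_apply (hu hS)]
  refine (lintegral_mono fun x => h x).trans ?_
  simp

lemma measurable_sum_range {α : Type} [MeasurableSpace α] {n : α → ℕ} (hn : Measurable n)
    {f : ℕ → α → ℝ} (hf : ∀ i, Measurable (f i)) :
    Measurable fun a => ∑ i ∈ Finset.range (n a), f i a :=
  (measurable_from_prod_countable_right (f := fun x : ℕ × α => ∑ i ∈ Finset.range x.1, f i x.2)
    fun m => Finset.measurable_sum (Finset.range m) fun i _ => hf i).comp
      (hn.prodMk measurable_id)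

/-- Indices of the points: layer, cell, number. -/
abbrev Ix := Σ _ : ℕ, Σ _ : ℕ, ℕ

/-- The marks. -/
abbrev Mk := Ix → ℝ

/-- Law of the marks. -/
noncomputable def mk : Measure Mk := infinitePi fun _ => un 0

instance : IsProbabilityMeasure mk := by unfold mk; infer_instance

/-- Points and marks. -/
abbrev OU := (ℕ → Layer) × Mk

/-- Law of points and marks. -/
noncomputable def PU : Measure OU := (PW fun _ => 1).prod mk

instance : IsProbabilityMeasure PU := by unfold PU; infer_instance

/-- Sum of the marks of layer `j` up to time `t` among the first `M` cells. -/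
noncomputable def JM (M j : ℕ) (t : ℝ) (ω : OU) : ℝ :=
  ∑ n ∈ Finset.range M, ∑ i ∈ Finset.range (ω.1 j n).1,
    ch n t ((ω.1 j n).2 i) * Int.fract (ω.2 ⟨j, n, i⟩)

/-- Sum of the marks of layer `j` up to time `t`. -/
noncomputable def JJ (j : ℕ) (t : ℝ) (ω : OU) : ℝ := JM ⌈t⌉₊ j t ω

lemma JJ_eq {t : ℝ} {M : ℕ} (h : t ≤ M) (j : ℕ) (ω : OU) : JJ j t ω = JM M j t ω := by
  refine Finset.sum_subset (Finset.range_subset_range.2 (Nat.ceil_le.2 h)) fun n _ hn => ?_
  refine Finset.sum_eq_zero fun i _ => mul_eq_zero_of_left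
    (if_neg fun h => hn (Finset.mem_range.2 ?_)) _
  exact Nat.lt_ceil.2 (h.1.trans_le h.2)

lemma JJ_zero (j : ℕ) (ω : OU) : JJ j 0 ω = 0 := by simp [JJ, JM]

lemma JJ_inc (j : ℕ) (ω : OU) {s t : ℝ} (h : s ≤ t) :
    0 ≤ JJ j t ω - JJ j s ω ∧ JJ j t ω - JJ j s ω ≤ NN t (ω.1 j) - NN s (ω.1 j) := by
  rw [JJ_eq (h.trans (Nat.le_ceil t)), NN_eq (h.trans (Nat.le_ceil t)), JJ, NN, JM, JM, NM, NM]
  simp only [← Finset.sum_sub_distrib, ← sub_mul]
  refine ⟨Finset.sum_nonneg fun n _ => Finset.sum_nonneg fun i _ =>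
    mul_nonneg (sub_nonneg.2 (ch_mono n _ h)) (Int.fract_nonneg _),
    Finset.sum_le_sum fun n _ => Finset.sum_le_sum fun i _ =>
      mul_le_of_le_one_right (sub_nonneg.2 (ch_mono n _ h)) (Int.fract_lt_one _).le⟩

lemma JJ_nonneg (j : ℕ) (ω : OU) {t : ℝ} (h : 0 ≤ t) : 0 ≤ JJ j t ω := by
  simpa [JJ_zero] using (JJ_inc j ω h).1

lemma JJ_le (j : ℕ) (ω : OU) {t T : ℝ} (h : 0 ≤ t) (hT : t ≤ T) : JJ j t ω ≤ NN T (ω.1 j) := by
  have := (JJ_inc j ω h).2
  rw [JJ_zero, NN_zero, sub_zero, sub_zero] at this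
  exact this.trans (NN_mono _ hT)

lemma measurable_ch' {α : Type} [MeasurableSpace α] (n : ℕ) {s p : α → ℝ} (hs : Measurable s)
    (hp : Measurable p) : Measurable fun a => ch n (s a) (p a) :=
  Measurable.ite ((measurableSet_lt measurable_const hp).inter (measurableSet_le hp hs))
    measurable_const measurable_const

lemma measurable_NN' {α : Type} [MeasurableSpace α] {s : α → ℝ} {x : α → Layer}
    (hs : Measurable s) (hx : Measurable x) : Measurable fun a => NN (s a) (x a) :=
  measurable_sum_range hs.nat_ceil fun n => measurable_sum_range (by fun_prop) fun i =>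
    measurable_ch' n hs (by fun_prop)

lemma measurable_JJ {α : Type} [MeasurableSpace α] (j : ℕ) {s : α → ℝ} {w : α → OU}
    (hs : Measurable s) (hw : Measurable w) : Measurable fun a => JJ j (s a) (w a) :=
  measurable_sum_range hs.nat_ceil fun n => measurable_sum_range (by fun_prop) fun i =>
    (measurable_ch' n hs (by fun_prop)).mul (measurable_fract.comp (by fun_prop))

lemma JJ_right (j : ℕ) (ω : OU) (t : ℝ) :
    ContinuousWithinAt (fun s => JJ j s ω) (Set.Ici t) t := by
  have h1 : Tendsto (fun s => JJ j t ω + (NN s (ω.1 j) - NN t (ω.1 j))) (𝓝[Set.Ici t] t)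
      (𝓝 (JJ j t ω)) := by
    simpa using ((NN_right (ω.1 j) t).tendsto.sub_const (NN t (ω.1 j))).const_add (JJ j t ω)
  refine tendsto_of_tendsto_of_tendsto_of_le_of_le' tendsto_const_nhds h1 ?_ ?_
  · filter_upwards [self_mem_nhdsWithin] with s hs
    linarith [(JJ_inc j ω hs).1]
  · filter_upwards [self_mem_nhdsWithin] with s hs
    linarith [(JJ_inc j ω hs).2]

lemma pgf (r : ℝ≥0) {m M : ℕ} {t : Fin (m + 1) → ℝ} (h0 : ∀ j, 0 ≤ t j) (hM : ∀ j, t j ≤ M)
    (c : Fin m → ℂ) {g : ℕ → ℝ → ℂ} (hg : ∀ n p, g n p =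
      1 + ∑ j, c j * (ch n (t j.succ) p - ch n (t j.castSucc) p : ℝ)) (h1 : ∀ n p, ‖g n p‖ ≤ 1) :
    ∫ x, ∏ n ∈ Finset.range M, ∏ i ∈ Finset.range (x n).1, g n ((x n).2 i) ∂(layer r) =
      cexp (∑ j, (t j.succ - t j.castSucc : ℝ) * (r * c j)) := by
  have hgm : ∀ n, Measurable (g n) := fun n => by
    rw [show g n = _ from funext (hg n)]
    exact (Finset.measurable_sum _ fun j _ => (((measurable_ch _ _).sub
      (measurable_ch _ _)).complex_ofReal).const_mul _).const_add _
  rw [layer, integral_prod_eval (cell r) _ fun n => measurable_cell_prod (hgm n)]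
  simp_rw [campbell r _ (hgm _) (h1 _), ← Complex.exp_sum]
  congr 1
  have h2 : ∀ n, ∫ p, g n p ∂(un n) - 1 = ∑ j, c j *
      (∫ p, ch n (t j.succ) p ∂(un n) - ∫ p, ch n (t j.castSucc) p ∂(un n) : ℝ) := fun n => by
    have hi : ∀ j : Fin m, Integrable (fun p => c j *
        (ch n (t j.succ) p - ch n (t j.castSucc) p : ℝ)) (un n) := fun j =>
      (((integrable_ch _ _).sub (integrable_ch _ _)).ofReal).const_mul _
    simp only [hg]
    rw [integral_add (integrable_const _) (integrable_finsetSum _ fun j _ => hi j),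
      integral_finsetSum _ fun j _ => hi j]
    simp only [integral_const, probReal_univ, one_smul, add_sub_cancel_left]
    refine Finset.sum_congr rfl fun j _ => ?_
    rw [integral_const_mul, integral_complex_ofReal,
      integral_sub (integrable_ch _ _) (integrable_ch _ _)]
  simp_rw [h2, Finset.mul_sum]
  rw [Finset.sum_comm]
  refine Finset.sum_congr rfl fun j _ => ?_
  rw [← Finset.mul_sum, ← Finset.mul_sum, ← ofReal_sum, Finset.sum_sub_distrib,
    sum_integral_ch (h0 _), sum_integral_ch (h0 _), min_eq_left (hM _), min_eq_left (hM _)]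
  ring

/-- Characteristic function of a mark. -/
noncomputable def ph (θ : ℝ) : ℂ := ∫ u, cexp ((θ * Int.fract u : ℝ) * I) ∂(un 0)

lemma cf_SS (η : ℕ → ℝ) (K : ℕ) :
    CF PU fun t ω => ∑ j ∈ Finset.range K, η j * JJ j t ω := by
  refine CF.of_exp (fun ω => by simp [JJ_zero]) (fun θ => ∑ j ∈ Finset.range K,
    ((1 : ℝ≥0) * (ph (θ * η j) - 1))) fun m t ht θ => ?_
  set M := ⌈(t (Fin.last m) : ℝ)⌉₊
  have hM : ∀ j, (t j : ℝ) ≤ M := fun j =>
    (NNReal.coe_le_coe.2 (ht j.le_last)).trans (Nat.le_ceil _)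
  set f : ℕ → ℕ → ℝ → ℝ → ℂ := fun j n p u => cexp ((∑ l, θ l * η j * Int.fract u *
    (ch n (t l.succ) p - ch n (t l.castSucc) p) : ℝ) * I) with hf
  have hfm : ∀ j n p, Measurable (f j n p) := fun j n p =>
    (((Finset.measurable_sum _ fun l _ => (measurable_fract.const_mul _).mul_const
      _).complex_ofReal).mul_const _).cexp
  have hi : ∀ a : ℝ, Integrable (fun u : ℝ => cexp ((a * Int.fract u : ℝ) * I)) (un 0) := fun a =>
    (integrable_const (1 : ℝ)).mono' (((measurable_fract.const_mul _).complex_ofReal.mul_const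
      _).cexp).aestronglyMeasurable (Eventually.of_forall fun u => (norm_exp_ofReal_mul_I _).le)
  have hg : ∀ j n p, ∫ u, f j n p u ∂(un 0) = 1 + ∑ l, (ph (θ l * η j) - 1) *
      (ch n (t l.succ) p - ch n (t l.castSucc) p : ℝ) := fun j n p => by
    simp only [hf, step_exp (t := fun l => (t l : ℝ)) (NNReal.coe_mono.comp ht)]
    have hi' : ∀ l : Fin m, Integrable (fun u : ℝ =>
        (cexp ((θ l * η j * Int.fract u : ℝ) * I) - 1) *
          (ch n (t l.succ) p - ch n (t l.castSucc) p : ℝ)) (un 0) := fun l =>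
      ((hi _).sub (integrable_const _)).mul_const _
    rw [integral_add (integrable_const _) (integrable_finsetSum _ fun l _ => hi' l),
      integral_finsetSum _ fun l _ => hi' l]
    simp only [integral_const, probReal_univ, one_smul]
    congr 1
    refine Finset.sum_congr rfl fun l _ => ?_
    rw [integral_mul_const, integral_sub (hi _) (integrable_const _)]
    simp [ph]
  have h1 : ∀ ω : OU, cexp ((∑ l, θ l * (∑ j ∈ Finset.range K, η j * JJ j (t l.succ) ω -
      ∑ j ∈ Finset.range K, η j * JJ j (t l.castSucc) ω) : ℝ) * I) =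
      ∏ z ∈ (Finset.range K).sigma fun j => (Finset.range M).sigma fun n =>
        Finset.range (ω.1 j n).1, f z.1 z.2.1 ((ω.1 z.1 z.2.1).2 z.2.2) (ω.2 z) := fun ω => by
    simp only [hf, ← Complex.exp_sum, ← Finset.sum_mul, ← ofReal_sum,
      JJ_eq (hM _), JM]
    congr 3
    simp only [← Finset.sum_sub_distrib, Finset.mul_sum, Finset.sum_sigma]
    rw [Finset.sum_comm]
    refine Finset.sum_congr rfl fun j _ => ?_
    rw [Finset.sum_comm]
    refine Finset.sum_congr rfl fun n _ => ?_
    rw [Finset.sum_comm]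
    exact Finset.sum_congr rfl fun i _ => Finset.sum_congr rfl fun l _ => by ring
  have hs : ∀ s : ℝ, Measurable fun ω : OU => ∑ j ∈ Finset.range K, η j * JJ j s ω := fun s =>
    Finset.measurable_sum _ fun j _ => (measurable_JJ j measurable_const measurable_id).const_mul _
  have hint : Integrable (fun ω : OU => cexp ((∑ l, θ l *
      (∑ j ∈ Finset.range K, η j * JJ j (t l.succ) ω -
      ∑ j ∈ Finset.range K, η j * JJ j (t l.castSucc) ω) : ℝ) * I)) ((PW fun _ => 1).prod mk) :=
    (integrable_const (1 : ℝ)).mono' (((Finset.measurable_sum _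
      fun l _ => ((hs _).sub (hs _)).const_mul _).complex_ofReal.mul_const
      _).cexp).aestronglyMeasurable (Eventually.of_forall fun u => (norm_exp_ofReal_mul_I _).le)
  rw [PU, integral_prod _ hint]
  simp_rw [h1]
  have h2 : ∀ x : ℕ → Layer, ∫ y, ∏ z ∈ (Finset.range K).sigma fun j => (Finset.range M).sigma
      fun n => Finset.range (x j n).1, f z.1 z.2.1 ((x z.1 z.2.1).2 z.2.2) (y z) ∂mk =
      ∏ j ∈ Finset.range K, ∏ n ∈ Finset.range M, ∏ i ∈ Finset.range (x j n).1,
        ∫ u, f j n ((x j n).2 i) u ∂(un 0) := fun x => by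
    rw [mk, integral_prod_eval (fun _ : Ix => un 0) _
      (f := fun z => f z.1 z.2.1 ((x z.1 z.2.1).2 z.2.2)) fun z => hfm _ _ _]
    simp only [Finset.prod_sigma]
  simp_rw [h2]
  have h3 : ∀ j n, Measurable fun p => ∫ u, f j n p u ∂(un 0) := fun j n => by
    simp_rw [hg]
    exact (Finset.measurable_sum _ fun j _ => (((measurable_ch _ _).sub
      (measurable_ch _ _)).complex_ofReal).const_mul _).const_add _
  rw [PW, integral_prod_eval (fun _ : ℕ => layer 1) _ (f := fun j x => ∏ n ∈ Finset.range M,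
    ∏ i ∈ Finset.range (x n).1, ∫ u, f j n ((x n).2 i) u ∂(un 0)) fun j =>
      Finset.measurable_prod _ fun n _ => (measurable_cell_prod (h3 j n)).comp
        (measurable_pi_apply n)]
  rw [Finset.prod_congr rfl fun j _ => pgf 1 (t := fun l => (t l : ℝ)) (fun l => (t l).2) hM _
    (hg j) fun n p => (norm_integral_le_of_norm_le_const (C := 1)
      (Eventually.of_forall fun u => (norm_exp_ofReal_mul_I _).le)).trans (by simp),
    ← Complex.exp_sum, Finset.sum_comm]
  simp only [Finset.mul_sum]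

lemma prob_inc (s τ : ℝ≥0) : layer 1 {x | NN (s + τ) x - NN s x ≠ 0} ≤ ENNReal.ofReal τ := by
  have h : CF (layer 1) fun t x => NN t x := CF.of_exp (fun x => NN_zero x)
    (fun θ => (1 : ℝ≥0) * (cexp (θ * I) - 1)) fun n t ht θ =>
      cf_NN 1 (t := fun j => (t j : ℝ)) (NNReal.coe_mono.comp ht) (fun j => (t j).2) θ
  have h1 := (h.stat (fun t => measurable_NN t) (le_self_add : s ≤ s + τ)).measure_mem_eq
    (s := {0}ᶜ) (measurableSet_singleton _).compl
  have h2 := prob_NN_ne 1 τ
  rw [add_tsub_cancel_left] at h1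
  rw [NNReal.coe_one, one_mul] at h2
  exact le_of_eq_of_le h1 h2

lemma aff_null {S : Set ℝ} (h0 : volume S = 0) (c : ℝ) {η : ℝ} (hη : η ≠ 0) :
    un 0 {z | c + η * Int.fract z ∈ S} = 0 := by
  have h1 : volume ((fun z => η * z) ⁻¹' ((fun z => c + z) ⁻¹' S)) = 0 := by
    rw [Real.volume_preimage_mul_left hη, measure_preimage_add, h0, mul_zero]
  rw [un, restrict_apply' measurableSet_Ioc]
  refine measure_mono_null (fun z hz => ?_) (measure_union_null h1 (Real.volume_singleton (a := 1)))
  rcases eq_or_ne z 1 with h | h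
  · exact Or.inr h
  · have h2 : Int.fract z = z := Int.fract_eq_self.2
      ⟨by simpa using hz.2.1.le, lt_of_le_of_ne (by simpa using hz.2.2) h⟩
    exact Or.inl (by simpa [h2] using hz.1)

end Pool.Agent.Lib.MP_9a0bf1_pr.T96
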