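import Pool.Agent.Lib.MP_9a0bf1_pr.T96a

/-! A very small subordinator with absolutely continuous laws. -/

set_option autoImplicit false

open MeasureTheory ProbabilityTheory Measure Filter Topology Complex
open scoped ENNReal NNReal

namespace Pool.Agent.Lib.MP_9a0bf1_pr.T96

/-- Size of the jumps of layer `j`. -/
noncomputable def eta (j : ℕ) : ℝ := 1 / (L (j + 2) : ℝ) ^ 5

lemma eta_pos (j : ℕ) : 0 < eta j := one_div_pos.2 (pow_pos (L_pos _) _)

/-- All but finitely many layers have few points. -/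
def GU : Set OU := {ω | ∀ T : ℕ, ∀ᶠ j in atTop, NN T (ω.1 j) ≤ L j}

lemma measurableSet_GU : MeasurableSet GU := by
  have : GU = ⋂ T : ℕ, ⋃ N : ℕ, ⋂ j, ⋂ (_ : N ≤ j), {ω : OU | NN T (ω.1 j) ≤ L j} := by
    ext ω; simp [GU]
  rw [this]
  exact .iInter fun T => .iUnion fun N => .iInter fun j => .iInter fun _ =>
    measurableSet_le (measurable_NN' measurable_const (by fun_prop)) measurable_const

lemma mp_layer (j : ℕ) : MeasurePreserving (fun ω : OU => ω.1 j) PU (layer 1) :=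
  (measurePreserving_eval_infinitePi (fun _ : ℕ => layer 1) j).comp measurePreserving_fst

lemma ae_GU : ∀ᵐ ω ∂PU, ω ∈ GU := by
  refine ae_all_iff.2 fun T => ?_
  have h1 : ∀ k, layer 1 {x | (L k : ℝ) - T ≤ |NN (T : ℝ≥0) x - (1 : ℝ≥0) * (T : ℝ≥0)|} ≤
      ENNReal.ofReal (2 * Real.exp (2 * T) * (1 / (L (k + 0) : ℝ) ^ 1)) := fun k => by
    refine (tail_NN 1 T zero_le_one le_rfl _).trans ?_
    rw [← ENNReal.ofReal_ofNat, ← ENNReal.ofReal_mul zero_le_two, mul_assoc 2]
    refine ENNReal.ofReal_le_ofReal (mul_le_mul_of_nonneg_left ?_ zero_le_two)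
    push_cast
    rw [show (1 : ℝ) * T * 1 ^ 2 - 1 * (L k - T) = 2 * T - L k by ring, Real.exp_sub, pow_one,
      mul_one_div]
    exact div_le_div_of_nonneg_left (by positivity) (L_pos k)
      (by rw [add_zero]; linarith [Real.add_one_le_exp (L k : ℝ)])
  have h := ae_eventually_notMem (μ := PU)
    (ne_top_of_le_ne_top ((summable_inv_L 0 one_ne_zero).mul_left _).tsum_ofReal_ne_top
      (ENNReal.tsum_le_tsum fun k => ((mp_layer k).measure_preimage_le _).trans (h1 k)))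
  filter_upwards [h] with ω hω
  filter_upwards [hω] with k hk
  simp only [Set.mem_preimage, Set.mem_ofPred_eq, not_le] at hk
  have := (abs_lt.1 hk).2
  push_cast at this
  linarith

lemma term_le (ω : OU) {T : ℕ} {t : ℝ≥0} (ht : t ≤ T) (j : ℕ) :
    ‖eta j * JJ j t ω‖ ≤ eta j * NN T (ω.1 j) := by
  rw [Real.norm_of_nonneg (mul_nonneg (eta_pos j).le (JJ_nonneg j ω t.coe_nonneg))]
  exact mul_le_mul_of_nonneg_left (JJ_le j ω t.coe_nonneg (by exact_mod_cast ht)) (eta_pos j).le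

lemma bound_le {ω : OU} (h : ω ∈ GU) (T : ℕ) :
    ∀ᶠ j in atTop, eta j * NN T (ω.1 j) ≤ 1 / (L (j + 2) : ℝ) ^ 4 := by
  filter_upwards [h T] with j hj
  have h1 := L_pos (j + 2)
  have h2 : (L j : ℝ) ≤ L (j + 2) := by
    linarith [L_step j, L_step (j + 1), L_pos j]
  refine (mul_le_mul_of_nonneg_left (hj.trans h2) (eta_pos j).le).trans_eq ?_
  rw [eta]
  field_simp

lemma summable_bound {ω : OU} (h : ω ∈ GU) (T : ℕ) :
    Summable fun j => eta j * NN T (ω.1 j) := by
  refine (summable_inv_L 2 four_ne_zero).of_norm_bounded_eventually_nat ?_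
  filter_upwards [bound_le h T] with j hj
  rwa [Real.norm_of_nonneg (mul_nonneg (eta_pos j).le ?_)]
  simpa [NN_zero] using NN_mono (ω.1 j) T.cast_nonneg

lemma summable_U {ω : OU} (h : ω ∈ GU) (t : ℝ≥0) : Summable fun j => eta j * JJ j t ω :=
  (summable_bound h ⌈t⌉₊).of_norm_bounded (term_le ω (Nat.le_ceil t))

/-- The subordinator. -/
noncomputable def U (t : ℝ≥0) : OU → ℝ := GU.indicator fun ω => ∑' j, eta j * JJ j t ω

lemma U_eq {ω : OU} (h : ω ∈ GU) (t : ℝ≥0) : U t ω = ∑' j, eta j * JJ j t ω :=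
  Set.indicator_of_mem h _

lemma U_eq' {ω : OU} (h : ω ∉ GU) (t : ℝ≥0) : U t ω = 0 := Set.indicator_of_notMem h _

lemma tendsto_U {ω : OU} (h : ω ∈ GU) (t : ℝ≥0) :
    Tendsto (fun K => ∑ j ∈ Finset.range K, eta j * JJ j t ω) atTop (𝓝 (U t ω)) := by
  rw [U_eq h]
  exact (summable_U h t).hasSum.tendsto_sum_nat

lemma measurable_sum_U (K : ℕ) (t : ℝ) :
    Measurable fun ω => ∑ j ∈ Finset.range K, eta j * JJ j t ω :=
  Finset.measurable_sum _ fun j _ => (measurable_JJ j measurable_const measurable_id).const_mul _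

lemma measurable_U (t : ℝ≥0) : Measurable (U t) := by
  refine measurable_of_tendsto_metrizable (f := fun K => GU.indicator fun ω =>
    ∑ j ∈ Finset.range K, eta j * JJ j t ω)
    (fun K => (measurable_sum_U K t).indicator measurableSet_GU) (tendsto_pi_nhds.2 fun ω => ?_)
  by_cases h : ω ∈ GU
  · simpa only [Set.indicator_of_mem h] using tendsto_U h t
  · simp only [Set.indicator_of_notMem h, U_eq' h, tendsto_const_nhds]

lemma U_zero (ω : OU) : U 0 ω = 0 := by
  by_cases h : ω ∈ GU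
  · simp [U_eq h, JJ_zero]
  · exact U_eq' h 0

lemma U_mono (ω : OU) : Monotone fun t => U t ω := by
  intro s t hst
  by_cases h : ω ∈ GU
  · simp only [U_eq h]
    exact (summable_U h s).tsum_le_tsum (fun j => mul_le_mul_of_nonneg_left
      (sub_nonneg.1 (JJ_inc j ω (NNReal.coe_le_coe.2 hst)).1) (eta_pos j).le) (summable_U h t)
  · simp only [U_eq' h, le_refl]

lemma U_nonneg (t : ℝ≥0) (ω : OU) : 0 ≤ U t ω := (U_zero ω).ge.trans (U_mono ω zero_le)

lemma U_right (ω : OU) (t : ℝ≥0) : ContinuousWithinAt (fun s => U s ω) (Set.Ici t) t := by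
  by_cases h : ω ∈ GU
  · simp only [ContinuousWithinAt, U_eq h]
    refine tendsto_tsum_of_dominated_convergence (summable_bound h (⌈t⌉₊ + 1)) (fun k => ?_) ?_
    · exact Tendsto.const_mul _
        ((JJ_right k ω t).comp NNReal.continuous_coe.continuousWithinAt fun s hs => hs)
    · filter_upwards [mem_nhdsWithin_of_mem_nhds (Iio_mem_nhds (lt_add_one t))] with s hs
      refine term_le ω (hs.le.trans ?_)
      push_cast
      exact add_le_add_left (Nat.le_ceil t) _
  · simp only [U_eq' h, continuousWithinAt_const]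

lemma tail_U {ω : OU} (h : ω ∈ GU) (T : ℕ) : ∀ᶠ K in atTop, ∀ t : ℝ≥0, t ≤ T →
    |U t ω - ∑ j ∈ Finset.range K, eta j * JJ j t ω| ≤ 1 / (L (K + 2) : ℝ) ^ 3 := by
  obtain ⟨N, hN⟩ := eventually_atTop.1 (bound_le h T)
  filter_upwards [eventually_ge_atTop N] with K hK t ht
  rw [U_eq h, ← (summable_U h t).sum_add_tsum_nat_add K, add_sub_cancel_left]
  refine ((tsum_of_norm_bounded (f := fun i => eta (i + K) * JJ (i + K) t ω)
    (summable_inv_L (K + 2) four_ne_zero).hasSum fun i => (term_le ω ht _).trans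
      (hN (i + K) (by omega))).trans (tsum_inv_L (K + 2) four_ne_zero)).trans ?_
  have := two_le_L (K + 2)
  rw [div_le_div_iff₀ (by positivity) (by positivity), pow_succ _ 3]
  nlinarith [pow_pos (L_pos (K + 2)) 3]

lemma cf_U : CF PU U :=
  CF.of_tendsto (cf_SS eta) (fun K t => measurable_sum_U K t)
    (ae_GU.mono fun _ hω t => tendsto_U hω t)

lemma le_L (k : ℕ) : (k : ℝ) ≤ L k := by
  have h1 := pow_mul_L k 0
  have h2 : (k : ℝ) ≤ 2 ^ k := by exact_mod_cast Nat.lt_two_pow_self.le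
  rw [add_zero] at h1
  nlinarith [two_le_L 0, pow_pos (two_pos : (0 : ℝ) < 2) k]

lemma prob_early (k : ℕ) (a : ℝ≥0) :
    PU {ω | ∃ j < k, NN (1 + a) (ω.1 j) - NN 1 (ω.1 j) ≠ 0} ≤ ENNReal.ofReal (k * a) ∧
      PU {ω | ∃ j < k, NN (0 + a) (ω.1 j) - NN 0 (ω.1 j) ≠ 0} ≤ ENNReal.ofReal (k * a) := by
  have h : ∀ s : ℝ≥0, PU {ω | ∃ j < k, NN (s + a) (ω.1 j) - NN s (ω.1 j) ≠ 0} ≤
      ENNReal.ofReal (k * a) := fun s => by
    refine le_trans (measure_mono fun ω hω => ?_) ((measure_biUnion_finset_le (Finset.range k)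
      fun j => (fun ω : OU => ω.1 j) ⁻¹' {x | NN (s + a) x - NN s x ≠ 0}).trans
      ((Finset.sum_le_card_nsmul _ _ _ fun j _ => ((mp_layer j).measure_preimage_le _).trans
        (prob_inc s a)).trans ?_))
    · simpa using hω
    · rw [Finset.card_range, nsmul_eq_mul, ← ENNReal.ofReal_natCast,
        ← ENNReal.ofReal_mul k.cast_nonneg]
  exact ⟨h 1, h 0⟩

lemma small_U : ∀ᵐ ω ∂PU, ∀ᶠ k in atTop, ∀ t : ℝ≥0, (t : ℝ) ≤ 11 / L (k + 1) →
    U t ω ≤ 1 / (L (k + 2) : ℝ) ^ 3 := by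
  have h1 : ∀ k : ℕ, (k : ℝ) * (11 / L (k + 1) : ℝ≥0) ≤ 11 * (1 / (L (k + 0) : ℝ) ^ 1) := fun k => by
    have h2 := two_le_L k
    have h3 := le_L k
    have h4 := pow_le_pow_right₀ (one_le_two.trans h2) (show 2 ≤ 8 by norm_num)
    push_cast
    rw [L_succ, add_zero]
    field_simp
    nlinarith
  have h := ae_eventually_notMem (μ := PU)
    (ne_top_of_le_ne_top ((summable_inv_L 0 one_ne_zero).mul_left _).tsum_ofReal_ne_top
      (ENNReal.tsum_le_tsum fun k => (prob_early k (11 / L (k + 1))).2.trans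
        (ENNReal.ofReal_le_ofReal (h1 k))))
  filter_upwards [h, ae_GU] with ω hω hG
  filter_upwards [hω, tail_U hG 1] with k hk h2 t ht
  have h3 : (t : ℝ) ≤ 1 := ht.trans ((div_le_one (L_pos _)).2
    (by linarith [L_step k, two_le_L k]))
  have h4 := (abs_le.1 (h2 t (by exact_mod_cast h3))).2
  rwa [Finset.sum_eq_zero fun j hj => ?_, sub_zero] at h4
  simp only [not_exists, not_and, not_not, NN_zero, sub_zero, zero_add] at hk
  have h5 := JJ_le j ω t.coe_nonneg ht
  have h6 := hk j (Finset.mem_range.1 hj)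
  push_cast at h6 h5
  rw [h6] at h5
  rw [h5.antisymm (JJ_nonneg j ω t.coe_nonneg), mul_zero]

lemma ae_point {t : ℝ≥0} (ht : 0 < t) : ∀ᵐ x ∂PW fun _ => 1, ∃ j, NN t (x j) ≠ 0 := by
  have h : ∀ K : ℕ, (PW fun _ => 1) {x | ¬∃ j, NN t (x j) ≠ 0} ≤
      ENNReal.ofReal (Real.exp (-t) ^ K) := fun K => by
    refine (measure_mono (t := Set.pi (Finset.range K) fun _ => {x | NN t x = (0 : ℕ)})
      fun x hx j _ => by simpa using not_exists.1 hx j).trans_eq ?_
    rw [PW, infinitePi_pi _ fun j _ => measurableSet_eq_fun (measurable_NN _) measurable_const]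
    simp only [prob_NN_eq]
    simp [ENNReal.ofReal_pow (Real.exp_pos _).le]
  refine ae_iff.2 (le_antisymm (ge_of_tendsto' (x := atTop) ?_ h) zero_le)
  simpa using ENNReal.tendsto_ofReal (tendsto_pow_atTop_nhds_zero_of_lt_one (Real.exp_pos _).le
    (Real.exp_lt_one_iff.2 (neg_lt_zero.2 (NNReal.coe_pos.2 ht))))

lemma JJ_update (x : ℕ → Layer) (m : Mk) {t : ℝ} {j n i : ℕ} (hn : n < ⌈t⌉₊) (hi : i < (x j n).1)
    (hc : ch n t ((x j n).2 i) = 1) (z : ℝ) (j' : ℕ) :
    JJ j' t (x, Function.update m ⟨j, n, i⟩ z) = JJ j' t (x, Function.update m ⟨j, n, i⟩ 0) +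
      if j' = j then Int.fract z else 0 := by
  rw [← sub_eq_iff_eq_add', JJ, JJ, JM, JM]
  simp only [← Finset.sum_sub_distrib, ← mul_sub]
  split_ifs with h
  · subst h
    rw [Finset.sum_eq_single_of_mem n (Finset.mem_range.2 hn) fun n' _ h' =>
      Finset.sum_eq_zero fun i' _ => by simp [h'],
      Finset.sum_eq_single_of_mem i (Finset.mem_range.2 hi) fun i' _ h' => by simp [h']]
    simp [hc]
  · exact Finset.sum_eq_zero fun n' _ => Finset.sum_eq_zero fun i' _ => by simp [h]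

lemma ac_U {t : ℝ≥0} (ht : 0 < t) {S : Set ℝ} (hS : MeasurableSet S) (h0 : volume S = 0) (c : ℝ) :
    PU {ω | c + U t ω ∈ S} = 0 := by
  have hm : MeasurableSet ({ω | c + U t ω ∈ S} ∩ GU) :=
    (((measurable_U t).const_add c) hS).inter measurableSet_GU
  rw [← Measure.measure_inter_eq_of_ae ae_GU, Set.inter_comm, PU, measure_prod_null hm]
  filter_upwards [ae_point ht] with x ⟨j, hj⟩
  rw [NN, NM] at hj
  obtain ⟨n, hn, hj⟩ := Finset.exists_ne_zero_of_sum_ne_zero hj
  obtain ⟨i, hi, hj⟩ := Finset.exists_ne_zero_of_sum_ne_zero hj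
  have hc : ch n t ((x j n).2 i) = 1 := by
    unfold ch at hj ⊢
    split_ifs at hj ⊢
    · rfl
    · exact absurd rfl hj
  refine le_antisymm (pi_le (fun _ : Ix => un 0) ⟨j, n, i⟩ (measurable_prodMk_left hm)
    fun m => ?_) zero_le
  refine (measure_mono_null (fun z hz => ?_) (aff_null h0
    (c + U t (x, Function.update m ⟨j, n, i⟩ 0)) (eta_pos j).ne')).le
  have h1 : (x, Function.update m ⟨j, n, i⟩ z) ∈ GU := hz.2
  have h2 : (x, Function.update m ⟨j, n, i⟩ 0) ∈ GU := hz.2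
  have h3 : c + U t (x, Function.update m ⟨j, n, i⟩ z) ∈ S := hz.1
  rw [U_eq h1] at h3
  simp only [JJ_update x m (Finset.mem_range.1 hn) (Finset.mem_range.1 hi) hc z, mul_add,
    mul_ite, mul_zero] at h3
  rw [(summable_U h2 t).tsum_add (hasSum_single j fun b hb => if_neg hb).summable,
    tsum_eq_single j fun b hb => if_neg hb, if_pos rfl, ← U_eq h2, ← add_assoc] at h3
  exact h3

end Pool.Agent.Lib.MP_9a0bf1_pr.T96
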