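import Pool.Agent.Lib.MP_9a0bf1_pr.T96b

/-! Thin sets of windows, and random times at which they are hit. -/

set_option autoImplicit false

open MeasureTheory ProbabilityTheory Measure Filter Topology
open scoped ENNReal NNReal

namespace Pool.Agent.Lib.MP_9a0bf1_pr.T96

/-- Points lying in a window of every level from `K` on. -/
def Cs (V ρ e τ θ : ℕ → ℝ) (K : ℕ) : Set ℝ := ⋂ k, ⋂ (_ : K ≤ k), ⋃ m : ℤ,
  (fun y => V k * y - θ k - m * ρ k) ⁻¹' Set.Icc (-e k) (τ k + e k)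

lemma measurableSet_Cs (V ρ e τ θ : ℕ → ℝ) (K : ℕ) : MeasurableSet (Cs V ρ e τ θ K) :=
  .iInter fun k => .iInter fun _ => .iUnion fun m => measurableSet_Icc.preimage (by fun_prop)

theorem thin_Cs {Ω : Type} [MeasurableSpace Ω] (P : Measure Ω) (Z : ℝ≥0 → Ω → ℝ)
    (V ρ e τ θ : ℕ → ℝ) (hρ : ∀ k, 0 < ρ k) (h0 : ∀ k, 0 < τ k + 4 * e k)
    (h1 : ∀ k, τ k + 4 * e k + (τ (k + 1) + 4 * e (k + 1)) < ρ (k + 1))
    (h2 : Tendsto (fun k => τ k + 4 * e k) atTop (𝓝 0))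
    (hZ : ∀ᵐ ω ∂P, ∀ᶠ k in atTop, ∀ t : ℝ≥0, (t : ℝ) ≤ τ k + 4 * e k →
      ∃ m : ℤ, |V (k + 1) * Z t ω - m * ρ (k + 1) - t| ≤ e (k + 1)) (K : ℕ) :
    Thin P Z (Cs V ρ e τ θ K) := by
  intro x
  refine measure_mono_null (fun ω hω => ?_) (ae_iff.1 hZ)
  intro hc
  obtain ⟨N, hN⟩ := eventually_atTop.1 hc
  have hh : hit Z x (Cs V ρ e τ θ K) ω = 0 := hω
  have hs : ∀ a : ℝ, 0 < a → ∃ u : ℝ≥0, 0 < u ∧ (u : ℝ) < a ∧ x + Z u ω ∈ Cs V ρ e τ θ K :=
    fun a ha => exists_of_hit_lt (u := NNReal.mk a ha.le) (by rw [hh]; exact_mod_cast ha)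
  obtain ⟨t, t0, t1, t2⟩ := hs _ (h0 (max K N))
  have key : ∀ k, max K N ≤ k → (t : ℝ) ≤ τ k + 4 * e k := by
    intro k hk
    induction k, hk using Nat.le_induction with
    | base => exact t1.le
    | succ k hk ih =>
      by_contra hn
      obtain ⟨u, u0, u1, u2⟩ := hs _ (sub_pos.2 (not_le.1 hn))
      have k1 : K ≤ k + 1 := by omega
      have u3 : (0 : ℝ) ≤ u := u.coe_nonneg
      have a0 := h0 (k + 1)
      simp only [Cs, Set.mem_iInter, Set.mem_iUnion, Set.mem_preimage, Set.mem_Icc] at t2 u2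
      obtain ⟨m1, a1, a2⟩ := t2 _ k1
      obtain ⟨m2, a3, a4⟩ := u2 _ k1
      obtain ⟨m3, a5⟩ := hN k (by omega) t ih
      obtain ⟨m4, a6⟩ := hN k (by omega) u (by linarith)
      rw [abs_le] at a5 a6
      have a7 := h1 k
      have a8 := hρ (k + 1)
      rcases le_or_gt (m1 - m2 - m3 + m4) 0 with h | h
      · have : ((m1 : ℝ) - m2 - m3 + m4) ≤ 0 := by exact_mod_cast h
        nlinarith
      · have : (1 : ℝ) ≤ ((m1 : ℝ) - m2 - m3 + m4) := by exact_mod_cast h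
        nlinarith
  have := ge_of_tendsto h2 (eventually_atTop.2 ⟨_, key⟩)
  exact this.not_gt t0

lemma exists_windows2 {Ω : Type} [MeasurableSpace Ω] (Q : Measure Ω) [IsProbabilityMeasure Q]
    (V ρ : ℕ → ℝ) (M : ℕ → ℕ) (hM : ∀ k, 0 < M k) (hρ : ∀ k, 0 < ρ k) (J : ℕ → ℝ → Ω → ℝ)
    (hJ : ∀ k (s : Ω → ℝ), Measurable s → Measurable fun ω => J k (s ω) ω) (y0 : Ω → ℝ)
    (hy : Measurable y0) :
    ∃ (θ : ℕ → ℝ) (s y : ℕ → Ω → ℝ), (∀ k, Measurable (s k)) ∧ (∀ ω, s 0 ω = 1) ∧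
      (∀ ω, y 0 ω = y0 ω) ∧ (∀ k ω, y (k + 1) ω = y k ω + J k (s (k + 1) ω) ω) ∧
      (∀ k ω ω', s k ω = s k ω' → y k ω = y k ω' → s (k + 1) ω = s (k + 1) ω') ∧
      (∀ k ω, s k ω ≤ s (k + 1) ω) ∧
      (∀ k ω, ∃ m : ℤ, V k * y k ω + s (k + 1) ω = θ k + m * ρ k) ∧
      ∀ k, Q {ω | s k ω + (1 - 1 / M k) * ρ k < s (k + 1) ω} ≤ (M k : ℝ≥0∞)⁻¹ := by
  let S := {σ : (Ω → ℝ) × (Ω → ℝ) // Measurable σ.1 ∧ Measurable σ.2}
  have hg : ∀ (k : ℕ) (σ : S), Measurable fun ω => (V k * σ.1.2 ω + σ.1.1 ω) / ρ k :=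
    fun k σ => ((σ.2.2.const_mul _).add σ.2.1).div_const _
  have h : ∀ (k : ℕ) (σ : S), ∃ φ : ℝ, Q {ω | 1 - 1 / (M k : ℝ) <
      Int.fract (φ - (V k * σ.1.2 ω + σ.1.1 ω) / ρ k)} ≤ (M k : ℝ≥0∞)⁻¹ := fun k σ => by
    have := isProbabilityMeasure_map (μ := Q) (hg k σ).aemeasurable
    obtain ⟨φ, hφ⟩ := exists_phase (Q.map fun ω => (V k * σ.1.2 ω + σ.1.1 ω) / ρ k) (g := id)
      measurable_id (hM k)
    exact ⟨φ, (le_map_apply (hg k σ).aemeasurable
      {x | 1 - 1 / (M k : ℝ) < Int.fract (φ - id x)}).trans hφ⟩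
  choose φ hφ using h
  let nx : ℕ → S → Ω → ℝ := fun k σ ω =>
    σ.1.1 ω + Int.fract (φ k σ - (V k * σ.1.2 ω + σ.1.1 ω) / ρ k) * ρ k
  have hn : ∀ k σ, Measurable (nx k σ) := fun k σ =>
    σ.2.1.add ((measurable_fract.comp (measurable_const.sub (hg k σ))).mul_const _)
  let σ : ℕ → S := fun k => Nat.rec ⟨(fun _ => 1, y0), measurable_const, hy⟩
    (fun k σ => ⟨(nx k σ, fun ω => σ.1.2 ω + J k (nx k σ ω) ω), hn k σ,
      σ.2.2.add (hJ k _ (hn k σ))⟩) k
  have h1 : ∀ k ω, (σ (k + 1)).1.1 ω = (σ k).1.1 ω + Int.fract (φ k (σ k) -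
      (V k * (σ k).1.2 ω + (σ k).1.1 ω) / ρ k) * ρ k := fun k ω => rfl
  refine ⟨fun k => φ k (σ k) * ρ k, fun k => (σ k).1.1, fun k => (σ k).1.2, fun k => (σ k).2.1,
    fun _ => rfl, fun _ => rfl, fun _ _ => rfl, fun k ω ω' a b => ?_, fun k ω => ?_,
    fun k ω => ⟨-⌊φ k (σ k) - (V k * (σ k).1.2 ω + (σ k).1.1 ω) / ρ k⌋, ?_⟩, fun k => ?_⟩
  · simp only [h1] at a b ⊢
    rw [a, b]
  · simp only [h1]
    exact le_add_of_nonneg_right (mul_nonneg (Int.fract_nonneg _) (hρ _).le)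
  · simp only [h1, Int.fract]
    have := (hρ k).ne'
    push_cast
    field_simp
    ring
  · refine le_trans (measure_mono fun ω hω => ?_) (hφ k (σ k))
    simp only [h1, Set.mem_ofPred_eq, add_lt_add_iff_left] at hω
    exact lt_of_mul_lt_mul_right hω (hρ k).le

lemma JJ_congr {j j' : ℕ} (h : j ≠ j') (t : ℝ) (x : ℕ → Layer) (z : Layer) (m : Mk) :
    JJ j t (Function.update x j' z, m) = JJ j t (x, m) := by
  simp only [JJ, JM, Function.update_of_ne h]

lemma JJ_const {j : ℕ} {ω : OU} {s t u : ℝ} (h1 : s ≤ t) (h2 : t ≤ u)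
    (h : NN u (ω.1 j) - NN s (ω.1 j) = 0) : JJ j t ω = JJ j s ω := by
  have h3 := JJ_inc j ω h1
  have h4 := NN_mono (ω.1 j) h2
  simp only at h4
  linarith [h3.1, h3.2]

lemma measurableSet_inc {α : Type} [MeasurableSpace α] {s : α → ℝ} {x : α → Layer}
    (hs : Measurable s) (hx : Measurable x) (τ : ℝ) :
    MeasurableSet {a | NN (s a + τ) (x a) - NN (s a) (x a) ≠ 0} :=
  (measurableSet_eq_fun ((measurable_NN' (hs.add_const _) hx).sub (measurable_NN' hs hx))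
    measurable_const).compl

/-- No point of layer `j` shortly after a time that does not depend on layer `j`. -/
lemma prob_indep (j : ℕ) {s : OU → ℝ} (hs : Measurable s) (h0 : ∀ ω, 0 ≤ s ω)
    (h1 : ∀ x z m, s (Function.update x j z, m) = s (x, m)) {τ : ℝ} (hτ : 0 ≤ τ) :
    PU {ω | NN (s ω + τ) (ω.1 j) - NN (s ω) (ω.1 j) ≠ 0} ≤ ENNReal.ofReal τ := by
  have m4 := measurableSet_inc (x := fun ω : OU => ω.1 j) hs (by fun_prop) τ
  rw [PU, prod_apply_symm m4]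
  refine (lintegral_mono (g := fun _ => ENNReal.ofReal τ) fun m => ?_).trans (by simp)
  refine pi_le (fun _ : ℕ => layer 1) j (measurable_prodMk_right m4) fun x => ?_
  refine le_trans (measure_mono fun z hz => ?_)
    (prob_inc (NNReal.mk (s (x, m)) (h0 _)) (NNReal.mk _ hτ))
  simpa [h1] using hz

/-- Difference of the marked layers of two copies. -/
noncomputable def DJ (j : ℕ) (t : ℝ) (q : OU × OU) : ℝ := eta j * JJ j t q.1 - eta j * JJ j t q.2

lemma measurable_DJ {α : Type} [MeasurableSpace α] (j : ℕ) {s : α → ℝ} {w : α → OU × OU}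
    (hs : Measurable s) (hw : Measurable w) : Measurable fun a => DJ j (s a) (w a) :=
  ((measurable_JJ j hs hw.fst).const_mul _).sub ((measurable_JJ j hs hw.snd).const_mul _)

theorem hit_K (γ : Measure ℝ) [IsProbabilityMeasure γ] (V ρ τ : ℕ → ℝ) (M : ℕ → ℕ)
    (hM : ∀ k, 0 < M k) (hρ : ∀ k, 0 < ρ k) (h0 : ∀ k, 0 < τ k)
    (h3 : ∀ k, (1 - 1 / M k) * ρ (k + 1) + τ (k + 1) ≤ τ k) (K : ℕ) :
    ∃ (θ : ℕ → ℝ) (F : Set (ℝ × OU × OU)), γ.prod (PU.prod PU) F ≤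
        ENNReal.ofReal (K * τ K) + ENNReal.ofReal (K * τ K) + ∑' k, ((M (k + K) : ℝ≥0∞)⁻¹ +
          (ENNReal.ofReal (τ (k + K + 1)) + ENNReal.ofReal (τ (k + K + 1)))) ∧
      ∀ p ∉ F, ∃ t : ℝ≥0, 0 < t ∧ ∀ k, K ≤ k → ∃ m : ℤ,
        V (k + 1) * (p.1 + ∑ j ∈ Finset.range k, DJ j t p.2) + t - θ (k + 1) -
          m * ρ (k + 1) ∈ Set.Icc 0 (τ (k + 1)) := by
  obtain ⟨θ, s, y, sm, s0, y0, y1, sd, s1, sl, sp⟩ := exists_windows2 (γ.prod (PU.prod PU))
    (fun k => V (k + K + 1)) (fun k => ρ (k + K + 1)) (fun k => M (k + K)) (fun k => hM _)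
    (fun k => hρ _) (fun k s p => DJ (k + K) s p.2)
    (fun k s hs => measurable_DJ _ hs measurable_snd)
    (fun p => p.1 + ∑ j ∈ Finset.range K, DJ j 1 p.2)
    (measurable_fst.add (Finset.measurable_sum _ fun j _ =>
      measurable_DJ j measurable_const measurable_snd))
  have mono : ∀ p, Monotone fun k => s k p := fun p => monotone_nat_of_le_succ fun k => s1 k p
  have one : ∀ k p, 1 ≤ s k p := fun k p => (s0 p).ge.trans (mono p k.zero_le)
  have inv : ∀ a q q' k, (∀ j, j < k + K → ∀ t, DJ j t q = DJ j t q') →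
      y k (a, q) = y k (a, q') ∧ s k (a, q) = s k (a, q') ∧
        s (k + 1) (a, q) = s (k + 1) (a, q') := by
    intro a q q' k
    induction k with
    | zero =>
      intro hj
      have a1 : y 0 (a, q) = y 0 (a, q') := by
        rw [y0, y0, Finset.sum_congr rfl fun i hi =>
          hj i (by have := Finset.mem_range.1 hi; omega) 1]
      have a2 : s 0 (a, q) = s 0 (a, q') := by rw [s0, s0]
      exact ⟨a1, a2, sd 0 _ _ a2 a1⟩
    | succ k ih =>
      intro hj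
      obtain ⟨a1, -, a2⟩ := ih fun j h => hj j (by omega)
      have a3 : y (k + 1) (a, q) = y (k + 1) (a, q') := by
        rw [y1, y1, a1, a2, hj _ (by omega)]
      exact ⟨a3, a2, sd _ _ _ a2 a3⟩
  set F3 : ℕ → Set (ℝ × OU × OU) := fun k => {p | NN (s (k + 1) p + τ (k + K + 1))
    (p.2.1.1 (k + K)) - NN (s (k + 1) p) (p.2.1.1 (k + K)) ≠ 0} with hF3
  set F4 : ℕ → Set (ℝ × OU × OU) := fun k => {p | NN (s (k + 1) p + τ (k + K + 1))
    (p.2.2.1 (k + K)) - NN (s (k + 1) p) (p.2.2.1 (k + K)) ≠ 0} with hF4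
  have p3 : ∀ k, γ.prod (PU.prod PU) (F3 k) ≤ ENNReal.ofReal (τ (k + K + 1)) := fun k => by
    have m3 : MeasurableSet (F3 k) := measurableSet_inc (sm _) (by fun_prop) _
    rw [prod_apply m3]
    refine (lintegral_mono (g := fun _ => ENNReal.ofReal (τ (k + K + 1))) fun a => ?_).trans
      (by simp)
    rw [prod_apply_symm (measurable_prodMk_left (x := a) m3)]
    refine (lintegral_mono (g := fun _ => ENNReal.ofReal (τ (k + K + 1))) fun u => ?_).trans
      (by simp)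
    exact prob_indep (k + K) (s := fun ω => s (k + 1) (a, ω, u)) ((sm _).comp (by fun_prop))
      (fun ω => zero_le_one.trans (one _ _)) (fun x z m => (inv a _ _ k fun j hj t => by
        rw [DJ, DJ, JJ_congr hj.ne]).2.2) (h0 _).le
  have p4 : ∀ k, γ.prod (PU.prod PU) (F4 k) ≤ ENNReal.ofReal (τ (k + K + 1)) := fun k => by
    have m3 : MeasurableSet (F4 k) := measurableSet_inc (sm _) (by fun_prop) _
    rw [prod_apply m3]
    refine (lintegral_mono (g := fun _ => ENNReal.ofReal (τ (k + K + 1))) fun a => ?_).trans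
      (by simp)
    rw [prod_apply (measurable_prodMk_left (x := a) m3)]
    refine (lintegral_mono (g := fun _ => ENNReal.ofReal (τ (k + K + 1))) fun u => ?_).trans
      (by simp)
    exact prob_indep (k + K) (s := fun ω => s (k + 1) (a, u, ω)) ((sm _).comp (by fun_prop))
      (fun ω => zero_le_one.trans (one _ _)) (fun x z m => (inv a _ _ k fun j hj t => by
        rw [DJ, DJ, JJ_congr hj.ne]).2.2) (h0 _).le
  set E : Set OU := {ω | ∃ j < K,
    NN (1 + NNReal.mk _ (h0 K).le) (ω.1 j) - NN 1 (ω.1 j) ≠ 0} with hE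
  have q1 : MeasurePreserving (fun p : ℝ × OU × OU => p.2.1) (γ.prod (PU.prod PU)) PU :=
    measurePreserving_fst.comp measurePreserving_snd
  have q2 : MeasurePreserving (fun p : ℝ × OU × OU => p.2.2) (γ.prod (PU.prod PU)) PU :=
    measurePreserving_snd.comp measurePreserving_snd
  refine ⟨fun k => θ (k - 1 - K), (fun p => p.2.1) ⁻¹' E ∪ (fun p => p.2.2) ⁻¹' E ∪ ⋃ k,
      {p | s k p + (1 - 1 / M (k + K)) * ρ (k + K + 1) < s (k + 1) p} ∪ (F3 k ∪ F4 k),
    (measure_union_le _ _).trans (add_le_add ((measure_union_le _ _).trans (add_le_add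
      ((q1.measure_preimage_le _).trans (prob_early K _).1)
      ((q2.measure_preimage_le _).trans (prob_early K _).1)))
      ((measure_iUnion_le _).trans (ENNReal.tsum_le_tsum fun k => (measure_union_le _ _).trans
        (add_le_add (sp k) ((measure_union_le _ _).trans (add_le_add (p3 k) (p4 k))))))),
    fun p hp => ?_⟩
  simp only [hF3, hF4, hE, Set.mem_union, Set.mem_preimage, Set.mem_ofPred_eq, Set.mem_iUnion,
    not_or, not_exists, not_and, not_not, not_lt, NNReal.coe_mk] at hp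
  obtain ⟨⟨f0, f1⟩, f2⟩ := hp
  have b1 : ∀ k j, k ≤ j → s j p + τ (j + K) ≤ s k p + τ (k + K) := by
    intro k j hj
    induction j, hj using Nat.le_induction with
    | base => exact le_rfl
    | succ j hj ih =>
      rw [Nat.add_right_comm]
      linarith [(f2 j).1, h3 (j + K)]
  have b2 : ∀ k j, s j p ≤ s k p + τ (k + K) := fun k j => by
    rcases le_total k j with h | h
    · linarith [b1 k j h, h0 (j + K)]
    · linarith [mono p h, h0 (k + K)]
  have b3 : BddAbove (Set.range fun j => s j p) := ⟨_, Set.forall_mem_range.2 (b2 0)⟩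
  have b4 : ∀ k, s k p ≤ ⨆ j, s j p := fun k => le_ciSup b3 k
  have b5 : ∀ k, ⨆ j, s j p ≤ s k p + τ (k + K) := fun k => ciSup_le (b2 k)
  have b6 : 0 < ⨆ j, s j p := by linarith [b4 0, s0 p]
  have b7 : ∀ k, y k p = p.1 + ∑ j ∈ Finset.range (k + K), DJ j (⨆ j, s j p) p.2 := by
    intro k
    induction k with
    | zero =>
      have c1 := (s0 p).ge.trans (b4 0)
      have c2 : ⨆ j, s j p ≤ 1 + τ K := by simpa [s0] using b5 0
      rw [y0, zero_add, Finset.sum_congr rfl fun j hj => ?_]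
      rw [DJ, DJ, JJ_const c1 c2 (f0 j (Finset.mem_range.1 hj)),
        JJ_const c1 c2 (f1 j (Finset.mem_range.1 hj))]
    | succ k ih =>
      have c2 : ⨆ j, s j p ≤ s (k + 1) p + τ (k + K + 1) := by
        simpa [Nat.add_right_comm] using b5 (k + 1)
      rw [y1, ih, Nat.add_right_comm, Finset.sum_range_succ, add_assoc, DJ, DJ,
        JJ_const (b4 (k + 1)) c2 (f2 k).2.1, JJ_const (b4 (k + 1)) c2 (f2 k).2.2]
  refine ⟨NNReal.mk _ b6.le, b6, fun k hk => ?_⟩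
  obtain ⟨k, rfl⟩ : ∃ j, k = j + K := ⟨k - K, by omega⟩
  obtain ⟨m, hm⟩ := sl k p
  have a3 := b5 (k + 1)
  have a4 := b4 (k + 1)
  rw [Nat.add_right_comm] at a3
  refine ⟨m, ?_⟩
  rw [NNReal.coe_mk, ← b7]
  simp only [Nat.add_sub_cancel]
  constructor <;> linarith

end Pool.Agent.Lib.MP_9a0bf1_pr.T96
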