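import Pool.Agent.Lib.MP_9a0bf1_pr.T96c

/-! The perturbed processes. -/

set_option autoImplicit false

open MeasureTheory ProbabilityTheory Measure Filter Topology
open scoped ENNReal NNReal

namespace Pool.Agent.Lib.MP_9a0bf1_pr.T96

lemma CF_add {Ω Ω' : Type} [MeasurableSpace Ω] [MeasurableSpace Ω'] {P : Measure Ω}
    [IsProbabilityMeasure P] {Q : Measure Ω'} [IsProbabilityMeasure Q] {X : ℝ≥0 → Ω → ℝ}
    {Y : ℝ≥0 → Ω' → ℝ} (hX : CF P X) (hY : CF Q Y) :
    CF (P.prod Q) fun t p => X t p.1 + Y t p.2 := by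
  intro n t ht θ
  have h1 := integral_prod_mul (μ := P) (ν := Q)
    (fun ω => Complex.exp ((∑ j, θ j * (X (t j.succ) ω - X (t j.castSucc) ω) : ℝ) * Complex.I))
    (fun ω => Complex.exp ((∑ j, θ j * (Y (t j.succ) ω - Y (t j.castSucc) ω) : ℝ) * Complex.I))
  have h2 := fun j : Fin n => integral_prod_mul (μ := P) (ν := Q)
    (fun ω => Complex.exp ((θ j * X (t j.succ - t j.castSucc) ω : ℝ) * Complex.I))
    (fun ω => Complex.exp ((θ j * Y (t j.succ - t j.castSucc) ω : ℝ) * Complex.I))
  rw [hX n t ht θ, hY n t ht θ, ← Finset.prod_mul_distrib] at h1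
  simp only [← h2] at h1
  simp only [← Complex.exp_add, ← add_mul, ← Complex.ofReal_add, ← Finset.sum_add_distrib,
    ← mul_add] at h1
  simp only [add_sub_add_comm]
  exact h1

/-- The probability space. -/
abbrev OX := (ℕ → Layer) × OU

/-- The probability measure. -/
noncomputable def PX (r : ℕ → ℝ≥0) : Measure OX := (PW r).prod PU

instance (r : ℕ → ℝ≥0) : IsProbabilityMeasure (PX r) := by unfold PX; infer_instance

/-- The perturbed process. -/
noncomputable def XU (r : ℕ → ℝ≥0) (t : ℝ≥0) (p : OX) : ℝ := W r t p.1 + U t p.2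

lemma measurable_XU (r : ℕ → ℝ≥0) (t : ℝ≥0) : Measurable (XU r t) :=
  ((measurable_W r t).comp measurable_fst).add ((measurable_U t).comp measurable_snd)

lemma XU_right (r : ℕ → ℝ≥0) (p : OX) (t : ℝ≥0) :
    ContinuousWithinAt (fun s => XU r s p) (Set.Ici t) t := (W_right r p.1 t).add (U_right p.2 t)

lemma XU_left (r : ℕ → ℝ≥0) (p : OX) (t : ℝ≥0) :
    ∃ l, l ≤ XU r t p ∧ Tendsto (fun s => XU r s p) (𝓝[<] t) (𝓝 l) := by
  obtain ⟨l, h1, h2⟩ := W_left r p.1 t
  exact ⟨_, add_le_add h1 ((U_mono p.2).leftLim_le le_rfl),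
    h2.add ((U_mono p.2).tendsto_leftLim t)⟩

lemma isLevy_XU {r : ℕ → ℝ≥0} (hr : Adm r) : IsLevy (PX r) (XU r) := by
  have h : CF (PX r) (XU r) := CF_add (CF.of_tendsto (cf_sum r)
    (fun K t => Finset.measurable_sum _ fun k _ => measurable_tm r k t)
    ((ae_G hr).mono fun ω hω t => tendsto_W hω t)) cf_U
  refine ⟨measurable_XU r, fun p => by rw [XU, W_zero, U_zero, add_zero],
    h.indep (measurable_XU r), fun s t => ?_, XU_right r,
    fun ω t => (XU_left r ω t).imp fun l hl => hl.2⟩
  simpa using h.stat (measurable_XU r) (le_self_add : s ≤ s + t)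

lemma ac_XU (r : ℕ → ℝ≥0) {t : ℝ≥0} (ht : 0 < t) {S : Set ℝ} (hS : MeasurableSet S)
    (h0 : volume S = 0) (c : ℝ) : PX r {p | c + XU r t p ∈ S} = 0 := by
  refine (measure_prod_null (((measurable_XU r t).const_add c) hS)).2
    (Eventually.of_forall fun a => ?_)
  simpa [XU, add_assoc, Set.preimage] using ac_U ht hS h0 (c + W r t a)

lemma reg_XU {r : ℕ → ℝ≥0} (hr : Adm r) : Reg (PX r) (XU r) := by
  obtain ⟨E', e1, e2, e3⟩ := exists_measurable_superset_of_null (ae_iff.1 small_U)
  set E : ℕ → Set (ℕ → Layer) := fun k => Set.pi (Finset.range (k + 2)) (Bs r k) with hE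
  have hEm : ∀ n, MeasurableSet (⋃ k, ⋃ (_ : n ≤ k), E k) := fun n => .iUnion fun k =>
    .iUnion fun _ => .pi (Finset.countable_toSet _) fun j _ => measurableSet_Bs r k j
  refine ⟨((⋂ n, ⋃ k, ⋃ (_ : n ≤ k), E k) ∩ G r) ×ˢ E'ᶜ, ((MeasurableSet.iInter hEm).inter
    (measurableSet_G r)).prod e2.compl, ?_, fun ⟨ω, v⟩ ⟨hω, hv⟩ u hu => ?_⟩
  · rw [PX, prod_prod, prob_compl_eq_one_sub e2, e3, tsub_zero, mul_one, Set.inter_comm,
      Measure.measure_inter_eq_of_ae (ae_G hr), Antitone.measure_iInter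
      (fun a b h => Set.biUnion_subset_biUnion_left fun k hk => h.trans hk)
      (fun n => (hEm n).nullMeasurableSet) ⟨0, measure_ne_top _ _⟩]
    refine (lt_of_lt_of_le (ENNReal.ofReal_pos.2 (by positivity)) (le_iInf fun n =>
      (prob_Bs hr n).trans (measure_mono (Set.subset_biUnion_of_mem (u := E) le_rfl)))).ne'
  · obtain ⟨N, hN⟩ := eventually_atTop.1 (tail_W hω.2 1)
    obtain ⟨M, hM⟩ := exists_pow_lt_of_lt_one (show (0 : ℝ) < u from hu) one_half_lt_one
    obtain ⟨N', hN'⟩ := eventually_atTop.1 (not_not.1 fun h => hv (e1 h))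
    have h := Set.mem_iInter.1 hω.1 (max (max N N') M)
    simp only [Set.mem_iUnion, hE, Set.mem_pi, Finset.coe_range, Set.mem_Iio] at h
    obtain ⟨k, hk, h⟩ := h
    have p0 := hr.pos k
    have p1 := hr.pos (k + 1)
    have l0 := two_le_L k
    have l1 := two_le_L (k + 1)
    have q : ∀ j, (1 / r j : ℝ≥0) ≤ (1 : ℕ) := fun j => by
      rw [← NNReal.coe_le_coe]
      push_cast
      rw [div_le_one (hr.pos j)]
      exact (one_le_pow₀ (one_le_two.trans (two_le_L j))).trans (hr j).1
    have a1 : ∀ j, j ≤ k → NN (1 / r k) (ω j) = 0 := fun j hj => by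
      simpa [Bs, hj] using h j (by omega)
    have a2 : NN (1 / r (k + 1)) (ω (k + 1)) = 2 := by simpa [Bs] using h (k + 1) (by omega)
    refine (exists_zero (XU_right r (ω, v)) (XU_left r (ω, v)) (s := 1 / r (k + 1))
      (u := 1 / r k) ?_ ?_ ?_).elim fun t ⟨t1, t2, t3⟩ => ?_
    rotate_right
    · refine ⟨t, lt_of_lt_of_le (one_div_pos.2 (by exact_mod_cast p1)) t1, t2.trans ?_, t3⟩
      rw [← NNReal.coe_le_coe]
      push_cast
      refine le_trans ?_ ((pow_le_pow_of_le_one (by norm_num) (by norm_num)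
        (show M ≤ k by omega)).trans hM.le)
      have h1 := pow_mul_L k 0
      rw [one_div_pow]
      refine one_div_le_one_div_of_le (by positivity) (le_trans ?_ (hr k).1)
      refine le_trans ?_ (le_self_pow₀ (by linarith) (by norm_num))
      rw [add_zero] at h1
      nlinarith [two_le_L 0, pow_pos (two_pos : (0 : ℝ) < 2) k]
    · rw [← NNReal.coe_le_coe]
      push_cast
      refine one_div_le_one_div_of_le p0 ((hr k).2.trans (le_trans ?_ (hr (k + 1)).1))
      have h1 := pow_le_pow_left₀ (by positivity) (L_step k) 10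
      rw [mul_pow] at h1
      nlinarith [pow_pos (L_pos k) 10]
    · have h1 := (abs_le.1 (hN (k + 2) (by omega) _ (q (k + 1)))).1
      have h2 := sum_L_le (k + 1) one_ne_zero
      have h3 : -∑ j ∈ Finset.range (k + 1), tm r j (1 / r (k + 1)) ω ≤
          ∑ j ∈ Finset.range (k + 1), 4 * (L j : ℝ) ^ 1 * (1 / (2 * (L (k + 1) : ℝ) ^ 10)) := by
        rw [← Finset.sum_neg_distrib]
        refine Finset.sum_le_sum fun j _ => ?_
        have b0 := L_pos j
        have b1 := NN_mono (ω j) (one_div_pos.2 p1).le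
        have b2 : (r j : ℝ) * (1 / r (k + 1)) ≤ 2 * (L j : ℝ) ^ 10 * (1 / (L (k + 1) : ℝ) ^ 10) :=
          mul_le_mul (hr j).2 (one_div_le_one_div_of_le (by positivity) (hr _).1) (by positivity)
            (by positivity)
        simp only [NN_zero] at b1
        rw [tm, ← neg_div, div_le_iff₀ (by positivity)]
        push_cast
        refine le_trans (by linarith) (b2.trans_eq ?_)
        field_simp
        ring
      rw [← Finset.sum_mul] at h3
      have h4 := h3.trans (mul_le_mul_of_nonneg_right h2 (by positivity))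
      rw [Finset.sum_range_succ, tm, L_succ (k + 1)] at h1
      push_cast at h1
      rw [a2, mul_one_div_cancel p1.ne'] at h1
      have h6 := U_nonneg (1 / r (k + 1)) v
      simp only [XU]
      generalize (L (k + 1) : ℝ) = l at *
      have h5 : l ^ 1 * (1 / (2 * l ^ 10)) + 2 / (l ^ 8) ^ 3 < (2 - 1) / l ^ 9 := by
        have := pow_le_pow_left₀ zero_le_two l1 15
        field_simp
        linarith
      linarith
    · have h1 := (abs_le.1 (hN (k + 1) (by omega) _ (q k))).2
      have h3 : ∑ j ∈ Finset.range k, tm r j (1 / r k) ω ≤ 0 := Finset.sum_nonpos fun j hj => by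
        rw [tm]
        push_cast
        rw [a1 j (Finset.mem_range.1 hj).le, zero_sub]
        exact div_nonpos_of_nonpos_of_nonneg (neg_nonpos.2 (by positivity)) (by positivity)
      have h6 : U (1 / r k) v ≤ 1 / (L (k + 1) : ℝ) ^ 3 := by
        refine (hN' k (by omega) (1 / r k) ?_).trans (one_div_le_one_div_of_le (by positivity)
          (pow_le_pow_left₀ (by positivity) (by linarith [L_step (k + 1)]) 3))
        push_cast
        rw [div_le_div_iff₀ p0 (L_pos _), L_succ]
        linarith [(hr k).1, pow_le_pow_right₀ (one_le_two.trans l0) (show 8 ≤ 10 by norm_num)]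
      rw [Finset.sum_range_succ, tm, L_succ k] at h1
      rw [L_succ k] at h6
      push_cast at h1
      rw [a1 k le_rfl, mul_one_div_cancel p0.ne'] at h1
      simp only [XU]
      generalize (L k : ℝ) = l at *
      have h5 : (0 - 1) / l ^ 9 + 2 / (l ^ 8) ^ 3 + 1 / (l ^ 8) ^ 3 ≤ 0 := by
        have := pow_le_pow_left₀ zero_le_two l0 15
        field_simp
        linarith
      linarith

end Pool.Agent.Lib.MP_9a0bf1_pr.T96
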