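import Pool.Agent.Lib.MP_9a0bf1_pr.T96d

/-! The counterexample with absolutely continuous laws. -/

set_option autoImplicit false

open MeasureTheory ProbabilityTheory Measure Filter Topology
open scoped ENNReal NNReal

namespace Pool.Agent.Lib.MP_9a0bf1_pr.T96

/-- Lengths of the windows. -/
noncomputable def tau (k : ℕ) : ℝ := (1 - 1 / (2 * L k)) / L (k + 1)

/-- Errors. -/
noncomputable def ee (k : ℕ) : ℝ := 6 / (L (k + 1) : ℝ) ^ 2

lemma tau_pos (k : ℕ) : 0 < tau k := by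
  have := two_le_L k
  refine div_pos (sub_pos.2 ?_) (L_pos _)
  rw [div_lt_one (by positivity)]
  linarith

lemma tau_le (k : ℕ) : tau k ≤ 1 / L (k + 1) := by
  have := L_pos k
  exact div_le_div_of_nonneg_right (sub_le_self _ (by positivity)) (L_pos _).le

lemma w_pos (k : ℕ) : 0 < tau k + 4 * ee k := by
  have := tau_pos k
  have := L_pos (k + 1)
  unfold ee
  positivity

lemma w_le (k : ℕ) : tau k + 4 * ee k ≤ 11 / L (k + 1) := by
  have h1 := tau_le k
  have h2 : (256 : ℝ) ≤ L (k + 1) := by linarith [L_step k, two_le_L k]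
  have h3 : 4 * ee k ≤ 10 / L (k + 1) := by
    unfold ee
    field_simp
    linarith
  have h4 : (11 : ℝ) / L (k + 1) = 1 / L (k + 1) + 10 / L (k + 1) := by ring
  linarith

lemma w_lt (k : ℕ) : tau k + 4 * ee k + (tau (k + 1) + 4 * ee (k + 1)) < 1 / L (k + 1) := by
  have h := two_le_L k
  simp only [tau, ee, L_succ]
  generalize (L k : ℝ) = l at *
  have h1 : (1 - 1 / (2 * l ^ 8)) / (l ^ 8) ^ 8 ≤ 1 / (l ^ 8) ^ 2 :=
    div_le_div₀ zero_le_one (sub_le_self _ (by positivity)) (by positivity)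
      (pow_le_pow_right₀ (one_le_pow₀ (by linarith)) (by norm_num))
  have h2 : 4 * (6 / ((l ^ 8) ^ 8) ^ 2) ≤ 1 / (l ^ 8) ^ 2 := by
    have := pow_le_pow_left₀ zero_le_two h 5
    have h3 := pow_le_pow_right₀ (show 1 ≤ l by linarith) (show 5 ≤ 112 by norm_num)
    field_simp
    linarith
  have h3 : (1 - 1 / (2 * l)) / l ^ 8 + 26 * (1 / (l ^ 8) ^ 2) < 1 / l ^ 8 := by
    have := pow_le_pow_left₀ zero_le_two h 7
    field_simp
    linarith
  have h4 : 6 / (l ^ 8) ^ 2 = 6 * (1 / (l ^ 8) ^ 2) := by ring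
  linarith

lemma w_tendsto : Tendsto (fun k => tau k + 4 * ee k) atTop (𝓝 0) := by
  have h1 := ((summable_inv_L 1 one_ne_zero).tendsto_atTop_zero).const_mul 11
  refine squeeze_zero (fun k => (w_pos k).le) (fun k => (w_le k).trans_eq ?_) (by simpa using h1)
  ring

lemma tau_nest (k : ℕ) : (1 - 1 / (L k : ℝ)) * (1 / L (k + 1)) + tau (k + 1) ≤ tau k := by
  have h := two_le_L k
  simp only [tau, L_succ]
  generalize (L k : ℝ) = l at *
  have h1 : (1 - 1 / (2 * l ^ 8)) / (l ^ 8) ^ 8 ≤ 1 / (2 * l ^ 9) := by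
    refine div_le_div₀ zero_le_one (sub_le_self _ (by positivity)) (by positivity) ?_
    have h3 := pow_le_pow_right₀ (show 1 ≤ l by linarith) (show 10 ≤ 8 * 8 by norm_num)
    rw [← pow_mul]
    nlinarith [pow_pos (show 0 < l by linarith) 9]
  refine (add_le_add_right h1 _).trans_eq ?_
  field_simp
  ring

lemma fail_le (K : ℕ) : ENNReal.ofReal (K * tau K) + ENNReal.ofReal (K * tau K) +
    ∑' k, ((L (k + K) : ℝ≥0∞)⁻¹ +
      (ENNReal.ofReal (tau (k + K + 1)) + ENNReal.ofReal (tau (k + K + 1)))) ≤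
    ENNReal.ofReal (8 * (1 / (L (K + 0) : ℝ) ^ 1)) := by
  have h0 := two_le_L K
  have h1 : K * tau K ≤ 1 / L K := by
    refine (mul_le_mul (le_L K) (tau_le K) (tau_pos K).le (L_pos K).le).trans ?_
    rw [L_succ]
    field_simp
    exact one_le_pow₀ (one_le_two.trans h0)
  have h2 : ∀ k, (L (k + K) : ℝ≥0∞)⁻¹ +
      (ENNReal.ofReal (tau (k + K + 1)) + ENNReal.ofReal (tau (k + K + 1))) ≤
      ENNReal.ofReal (3 * (1 / (L (k + K) : ℝ) ^ 1)) := fun k => by
    have h3 := L_pos (k + K)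
    have h4 : tau (k + K + 1) ≤ 1 / L (k + K) := (tau_le _).trans (one_div_le_one_div_of_le h3
      (by linarith [L_step (k + K), L_step (k + K + 1)]))
    have h5 := (tau_pos (k + K + 1)).le
    rw [← ENNReal.ofReal_natCast, ← ENNReal.ofReal_inv_of_pos h3, ← ENNReal.ofReal_add h5 h5,
      ← ENNReal.ofReal_add (by positivity) (by positivity), pow_one, inv_eq_one_div]
    exact ENNReal.ofReal_le_ofReal (by linarith)
  have h3 := tsum_inv_L K one_ne_zero
  have h4 : 0 ≤ K * tau K := mul_nonneg K.cast_nonneg (tau_pos K).le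
  refine (add_le_add le_rfl (ENNReal.tsum_le_tsum h2)).trans ?_
  rw [← ENNReal.ofReal_tsum_of_nonneg (fun k => by positivity)
    ((summable_inv_L K one_ne_zero).mul_left 3), tsum_mul_left, ← ENNReal.ofReal_add h4 h4,
    ← ENNReal.ofReal_add (by positivity) (by positivity)]
  refine ENNReal.ofReal_le_ofReal ?_
  rw [add_zero, pow_one]
  rw [pow_one, show (2 : ℝ) / L K = 2 * (1 / L K) by ring] at h3
  linarith

lemma clock_W {x y : ℕ → Layer} (hx : x ∈ G (rate 0)) (hy : y ∈ G (rate 1)) (T : ℕ) :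
    ∀ᶠ k in atTop, ∀ t : ℝ≥0, t ≤ T → ∃ m : ℤ, |L (k + 1 + 1) * (W (rate 0) t x - W (rate 1) t y) -
      m * (1 / L (k + 1)) - t| ≤ 4 * (1 / (L (k + 1 + 1) : ℝ) ^ 2) := by
  filter_upwards [(tendsto_add_atTop_nat 2).eventually (tail_W hx T),
    (tendsto_add_atTop_nat 2).eventually (tail_W hy T)] with k c0 c1 t ht
  obtain ⟨m, hm⟩ := sum_tm t x y (k + 1)
  have d0 := abs_le.1 (c0 t ht)
  have d1 := abs_le.1 (c1 t ht)
  have h0 : |W (rate 0) t x - W (rate 1) t y - (m / (L (k + 1) : ℝ) ^ 9 + D (k + 1 + 1) * t)| ≤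
      4 / (L (k + 1 + 1) : ℝ) ^ 3 := by
    rw [← hm, abs_le, show (4 : ℝ) = 2 + 2 by norm_num, add_div]
    constructor <;> linarith
  generalize k + 1 = k at *
  have := L_pos k
  have h1 := mul_le_mul_of_nonneg_left h0 (L_pos (k + 1)).le
  rw [← abs_of_pos (L_pos (k + 1)), ← abs_mul, abs_of_pos (L_pos (k + 1))] at h1
  refine ⟨m, (le_of_eq ?_).trans (h1.trans_eq ?_)⟩
  · congr 1
    simp only [D, NNReal.coe_div, NNReal.coe_one, NNReal.coe_natCast, L_succ]
    field_simp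
    ring
  · have := L_pos (k + 1)
    field_simp

lemma scale {a l : ℝ} (hl : 0 < l) (h : |a| ≤ 1 / l ^ 3) : |l * a| ≤ 1 / l ^ 2 := by
  rw [abs_mul, abs_of_pos hl]
  refine (mul_le_mul_of_nonneg_left h hl.le).trans_eq ?_
  field_simp

theorem main : ∃ (Ω : Type) (_ : MeasurableSpace Ω) (P : Measure Ω) (_ : IsProbabilityMeasure P)
    (X Y : ℝ≥0 → Ω → ℝ), IsLevy P X ∧ IsLevy P Y ∧
      IndepFun (fun ω t => X t ω) (fun ω t => Y t ω) P ∧ Hunt P X ∧ Hunt P Y ∧
      (∀ t, 0 < t → P.map (X t) ≪ volume ∧ P.map (Y t) ≪ volume ∧ P.map ((X + Y) t) ≪ volume) ∧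
      ∃ A, MeasurableSet A ∧ Semipolar P (X + Y) A ∧ ¬Polar P (X + Y) A ∧
        ∀ᵐ x : ℝ, ∀ᵐ ω ∂P, hit (X + Y) x A ω < ∞ := by
  have h0 := adm_rate 0
  have h1 := adm_rate 1
  have mX : ∀ t, Measurable fun ω : OX × OX => XU (rate 0) t ω.1 := fun t =>
    (measurable_XU _ t).comp measurable_fst
  have mY : ∀ t, Measurable fun ω : OX × OX => -XU (rate 1) t ω.2 := fun t =>
    ((measurable_XU _ t).comp measurable_snd).neg
  refine ⟨_, _, (PX (rate 0)).prod (PX (rate 1)), inferInstance, fun t ω => XU (rate 0) t ω.1,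
    fun t ω => -XU (rate 1) t ω.2, (isLevy_XU h0).comp measurePreserving_fst,
    (isLevy_XU h1).neg.comp measurePreserving_snd, indepFun_prod
      (measurable_pi_lambda (fun ω t => XU (rate 0) t ω) (measurable_XU _))
      (measurable_pi_lambda (fun ω t => -XU (rate 1) t ω) fun t => (measurable_XU _ t).neg),
    ((reg_XU h0).comp measurePreserving_fst).hunt,
    ((reg_XU h1).neg.comp measurePreserving_snd).hunt, fun t ht => ⟨?_, ?_, ?_⟩, ?_⟩
  · refine AbsolutelyContinuous.mk fun S hS hS0 => ?_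
    rw [map_apply (mX t) hS]
    refine quasiMeasurePreserving_fst.preimage_null (s := XU (rate 0) t ⁻¹' S) ?_
    simpa [Set.preimage] using ac_XU _ ht hS hS0 0
  · refine AbsolutelyContinuous.mk fun S hS hS0 => ?_
    rw [map_apply (mY t) hS]
    refine quasiMeasurePreserving_snd.preimage_null (s := XU (rate 1) t ⁻¹' (-S)) ?_
    simpa [Set.preimage] using ac_XU _ ht hS.neg (by rwa [Measure.measure_neg]) 0
  · refine AbsolutelyContinuous.mk fun S hS hS0 => ?_
    have hm := (mX t).add (mY t)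
    refine (map_apply hm hS).trans ((prod_apply_symm (hm hS)).trans ?_)
    refine (lintegral_congr fun q => ?_).trans lintegral_zero
    simpa [Set.preimage, add_comm] using ac_XU _ ht hS hS0 (-XU (rate 1) t q)
  set P := (PX (rate 0)).prod (PX (rate 1))
  set Z : ℝ≥0 → OX × OX → ℝ := (fun t ω => XU (rate 0) t ω.1) + fun t ω => -XU (rate 1) t ω.2
    with hZ
  have eZ : ∀ t ω, Z t ω = W (rate 0) t ω.1.1 - W (rate 1) t ω.2.1 + (U t ω.1.2 - U t ω.2.2) :=
    fun t ω => by simp only [hZ, Pi.add_apply, XU]; ring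
  have q0 : QuasiMeasurePreserving (fun ω : OX × OX => ω.1.1) P (PW (rate 0)) :=
    quasiMeasurePreserving_fst.comp quasiMeasurePreserving_fst
  have q1 : QuasiMeasurePreserving (fun ω : OX × OX => ω.2.1) P (PW (rate 1)) :=
    quasiMeasurePreserving_fst.comp quasiMeasurePreserving_snd
  have q2 : QuasiMeasurePreserving (fun ω : OX × OX => ω.1.2) P PU :=
    quasiMeasurePreserving_snd.comp quasiMeasurePreserving_fst
  have q3 : QuasiMeasurePreserving (fun ω : OX × OX => ω.2.2) P PU :=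
    quasiMeasurePreserving_snd.comp quasiMeasurePreserving_snd
  have q4 : QuasiMeasurePreserving (fun ω : OX × OX => (ω.1.2, ω.2.2)) P (PU.prod PU) :=
    (measurePreserving_snd.prod measurePreserving_snd).quasiMeasurePreserving
  choose θ F hF hit' using hit_K (gaussianReal 0 1) (fun k => L (k + 1)) (fun k => 1 / L k) tau L
    (fun k => by exact_mod_cast L_pos k) (fun k => one_div_pos.2 (L_pos k)) tau_pos tau_nest
  set C : ℕ → Set ℝ := fun n => Cs (fun k => L (k + 1)) (fun k => 1 / L k) ee tau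
    (θ n.unpair.1) n.unpair.2 with hC
  have a3 : ∀ᵐ x : ℝ, ∀ᵐ ω ∂P, hit Z x (⋃ n, C n) ω < ∞ := by
    have h := ae_ae_of_ae_prod (ae_eventually_notMem
      (ne_top_of_le_ne_top ((summable_inv_L 0 one_ne_zero).mul_left _).tsum_ofReal_ne_top
        (ENNReal.tsum_le_tsum fun K => (hF K).trans (fail_le K))))
    filter_upwards [(gaussianReal_absolutelyContinuous' 0 one_ne_zero).ae_le h] with x hx
    filter_upwards [q4.ae hx, q0.ae (ae_G h0), q1.ae (ae_G h1), q2.ae ae_GU, q3.ae ae_GU]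
      with ω b b0 b1 b2 b3
    obtain ⟨K, hK⟩ := b.exists
    obtain ⟨t, t0, ht⟩ := hit' K _ hK
    obtain ⟨N, hN⟩ := eventually_atTop.1 ((clock_W b0 b1 ⌈t⌉₊).and
      ((tail_U b2 ⌈t⌉₊).and (tail_U b3 ⌈t⌉₊)))
    refine (hit_le t0 (Set.mem_iUnion.2 ⟨Nat.pair K (max K N + 1), ?_⟩)).trans_lt
      ENNReal.coe_lt_top
    simp only [hC, Cs, Nat.unpair_pair, Set.mem_iInter, Set.mem_iUnion, Set.mem_preimage,
      Set.mem_Icc]
    intro k hk
    obtain ⟨k, rfl⟩ : ∃ j, k = j + 1 := ⟨k - 1, by omega⟩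
    obtain ⟨c1, c2, c3⟩ := hN k (by omega)
    obtain ⟨m1, a1⟩ := c1 t (Nat.le_ceil t)
    obtain ⟨m2, a2, a3⟩ := ht k (by omega)
    have a4 := abs_le.1 (scale (L_pos (k + 2)) (c2 t (Nat.le_ceil t)))
    have a5 := abs_le.1 (scale (L_pos (k + 2)) (c3 t (Nat.le_ceil t)))
    have a6 : ee (k + 1) = 6 * (1 / (L (k + 2) : ℝ) ^ 2) := by rw [ee]; ring
    simp only [DJ, Finset.sum_sub_distrib] at a2 a3
    rw [abs_le] at a1
    refine ⟨m1 + m2, ?_, ?_⟩ <;> rw [eZ, a6] <;> push_cast <;> linarith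
  refine ⟨⋃ n, C n, .iUnion fun n => measurableSet_Cs .., ⟨C, fun n => ⟨measurableSet_Cs ..,
    thin_Cs P Z _ _ _ _ _ (fun k => one_div_pos.2 (L_pos k)) w_pos w_lt w_tendsto ?_ _⟩,
    subset_rfl⟩, fun h => ?_, a3⟩
  · filter_upwards [q0.ae (ae_G h0), q1.ae (ae_G h1), q2.ae small_U, q3.ae small_U]
      with ω b0 b1 b2 b3
    filter_upwards [clock_W b0 b1 1, b2, b3] with k c1 c2 c3 t ht
    have t1 := ht.trans (w_le k)
    have t2 : (t : ℝ) ≤ 1 := t1.trans ((div_le_one (L_pos _)).2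
      (by linarith [L_step k, two_le_L k]))
    obtain ⟨m, a1⟩ := c1 t (by exact_mod_cast t2)
    have a4 := abs_le.1 (scale (L_pos (k + 2)) ((abs_of_nonneg (U_nonneg t _)).trans_le (c2 t t1)))
    have a5 := abs_le.1 (scale (L_pos (k + 2)) ((abs_of_nonneg (U_nonneg t _)).trans_le (c3 t t1)))
    have a6 : ee (k + 1) = 6 * (1 / (L (k + 2) : ℝ) ^ 2) := by rw [ee]; ring
    rw [abs_le] at a1
    refine ⟨m, ?_⟩
    rw [eZ, a6, abs_le]
    constructor <;> linarith
  · obtain ⟨x, hx⟩ := a3.exists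
    obtain ⟨ω, h2, h3⟩ := (hx.and (measure_eq_zero_iff_ae_notMem.1 (h x))).exists
    exact h3 h2

end Pool.Agent.Lib.MP_9a0bf1_pr.T96
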