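import Pool.Agent.Lib.MP_9a0bf1_pr.CF
import Pool.Agent.Lib.MP_9a0bf1_pr.PP

/-! A sum of compensated Poisson processes with lacunary jump sizes. -/

set_option autoImplicit false

open MeasureTheory ProbabilityTheory Measure Filter Topology Complex
open scoped ENNReal NNReal

namespace Pool.Agent.Lib.MP_9a0bf1_pr

/-- The scales. -/
def L (k : ℕ) : ℕ := 2 ^ 8 ^ k

lemma L_succ (k : ℕ) : (L (k + 1) : ℝ) = (L k : ℝ) ^ 8 := by
  simp [L, pow_succ (8 : ℕ), pow_mul]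

lemma two_le_L (k : ℕ) : (2 : ℝ) ≤ L k := by
  have : 2 ^ 1 ≤ L k := Nat.pow_le_pow_right two_pos (Nat.one_le_pow _ _ (by norm_num))
  exact_mod_cast this

lemma L_pos (k : ℕ) : (0 : ℝ) < L k := two_pos.trans_le (two_le_L k)

lemma L_step (k : ℕ) : 128 * (L k : ℝ) ≤ L (k + 1) := by
  rw [L_succ, pow_succ]
  exact mul_le_mul_of_nonneg_right (le_trans (by norm_num)
    (pow_le_pow_left₀ zero_le_two (two_le_L k) 7)) (L_pos k).le

lemma pow_mul_L (i k : ℕ) : 2 ^ i * (L k : ℝ) ≤ L (i + k) := by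
  induction i with
  | zero => simp
  | succ i ih =>
    rw [Nat.add_right_comm, pow_succ]
    linarith [L_step (i + k), L_pos (i + k)]

lemma inv_L_le (i k : ℕ) {n : ℕ} (hn : n ≠ 0) :
    1 / (L (i + k) : ℝ) ^ n ≤ 1 / (L k : ℝ) ^ n * (1 / 2) ^ i := by
  have := L_pos k
  rw [one_div_pow, one_div_mul_one_div]
  refine one_div_le_one_div_of_le (by positivity) (le_trans ?_
    (pow_le_pow_left₀ (by positivity) (pow_mul_L i k) n))
  rw [mul_pow, mul_comm]
  exact mul_le_mul_of_nonneg_right (le_self_pow₀ (one_le_pow₀ one_le_two) hn) (by positivity)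

lemma summable_inv_L (k : ℕ) {n : ℕ} (hn : n ≠ 0) : Summable fun i => 1 / (L (i + k) : ℝ) ^ n :=
  Summable.of_nonneg_of_le (fun _ => by positivity) (fun i => inv_L_le i k hn)
    (summable_geometric_two.mul_left _)

lemma tsum_inv_L (k : ℕ) {n : ℕ} (hn : n ≠ 0) :
    ∑' i, 1 / (L (i + k) : ℝ) ^ n ≤ 2 / (L k : ℝ) ^ n := by
  refine ((summable_inv_L k hn).tsum_le_tsum (fun i => inv_L_le i k hn)
    (summable_geometric_two.mul_left _)).trans_eq ?_
  rw [tsum_mul_left, tsum_geometric_two]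
  ring

lemma sum_L_le (k : ℕ) {n : ℕ} (hn : n ≠ 0) :
    ∑ j ∈ Finset.range k, 4 * (L j : ℝ) ^ n ≤ (L k : ℝ) ^ n := by
  induction k with
  | zero => simp
  | succ k ih =>
    have := L_pos k
    have h1 := pow_le_pow_left₀ (by positivity) (L_step k) n
    have h2 : (128 : ℝ) ≤ 128 ^ n := le_self_pow₀ (by norm_num) hn
    rw [mul_pow] at h1
    rw [Finset.sum_range_succ]
    nlinarith [pow_pos this n]

/-- Admissible rates. -/
def Adm (r : ℕ → ℝ≥0) : Prop := ∀ k, (L k : ℝ) ^ 10 ≤ r k ∧ (r k : ℝ) ≤ 2 * (L k : ℝ) ^ 10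

lemma Adm.pos {r : ℕ → ℝ≥0} (hr : Adm r) (k : ℕ) : (0 : ℝ) < r k :=
  (pow_pos (L_pos k) _).trans_le (hr k).1

/-- The probability measure. -/
noncomputable def PW (r : ℕ → ℝ≥0) : Measure (ℕ → Layer) := infinitePi fun k => layer (r k)

instance (r : ℕ → ℝ≥0) : IsProbabilityMeasure (PW r) := by unfold PW; infer_instance

/-- All but finitely many layers stay close to their means. -/
def Good (r : ℕ → ℝ≥0) (ω : ℕ → Layer) : Prop :=
  ∀ T : ℕ, ∀ᶠ k in atTop, ∀ t : ℝ≥0, t ≤ T → |NN t (ω k) - r k * t| ≤ (L k : ℝ) ^ 6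

lemma grid_prob {r : ℕ → ℝ≥0} (hr : Adm r) (T k : ℕ) :
    layer (r k) (⋃ j ∈ Finset.range (2 * L k ^ 10 * T + 2),
      {x | (L k : ℝ) ^ 6 / 2 ≤ |NN (j / r k : ℝ≥0) x - r k * (j / r k : ℝ≥0)|}) ≤
      ENNReal.ofReal ((2 * T + 2) * (2 * Real.exp (2 * T + 2) * (Nat.factorial 11 * 2 ^ 11)) *
        (1 / (L (k + 0) : ℝ) ^ 1)) := by
  have h0 := L_pos k
  have h1 : (1 : ℝ) ≤ L k := one_le_two.trans (two_le_L k)
  have h2 := hr.pos k
  have h3 : ∀ j ∈ Finset.range (2 * L k ^ 10 * T + 2), layer (r k)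
      {x | (L k : ℝ) ^ 6 / 2 ≤ |NN (j / r k : ℝ≥0) x - r k * (j / r k : ℝ≥0)|} ≤
      ENNReal.ofReal (2 * Real.exp (2 * T + 2) * (Nat.factorial 11 * 2 ^ 11 / (L k : ℝ) ^ 11)) := by
    intro j hj
    refine (tail_NN (r k) (j / r k) (θ := 1 / (L k : ℝ) ^ 5) (by positivity)
      ((div_le_one (by positivity)).2 (one_le_pow₀ h1)) _).trans ?_
    rw [← ENNReal.ofReal_ofNat, ← ENNReal.ofReal_mul zero_le_two, mul_assoc 2, Real.exp_sub,
      div_eq_mul_inv (Real.exp _)]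
    refine ENNReal.ofReal_le_ofReal (mul_le_mul_of_nonneg_left (mul_le_mul (Real.exp_le_exp.2 ?_)
      ?_ (by positivity) (by positivity)) zero_le_two)
    · have h4 : (j : ℝ) ≤ 2 * L k ^ 10 * T + 2 := by exact_mod_cast (Finset.mem_range.1 hj).le
      have h5 : (1 : ℝ) ≤ L k ^ 10 := one_le_pow₀ h1
      push_cast
      field_simp
      linarith
    · have h4 := Real.pow_div_factorial_le_exp (L k / 2) (by positivity) 11
      rw [show 1 / (L k : ℝ) ^ 5 * (L k ^ 6 / 2) = L k / 2 by field_simp]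
      refine (inv_anti₀ (by positivity) h4).trans_eq ?_
      field_simp
  refine (measure_biUnion_finset_le _ _).trans ((Finset.sum_le_card_nsmul _ _ _ h3).trans ?_)
  rw [Finset.card_range, nsmul_eq_mul, ← ENNReal.ofReal_natCast,
    ← ENNReal.ofReal_mul (by positivity)]
  refine ENNReal.ofReal_le_ofReal ?_
  have h5 : (1 : ℝ) ≤ L k ^ 10 := one_le_pow₀ h1
  push_cast
  rw [add_zero]
  calc _ ≤ ((2 * T + 2) * L k ^ 10) * (2 * Real.exp (2 * T + 2) *
        (Nat.factorial 11 * 2 ^ 11 / (L k : ℝ) ^ 11)) :=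
        mul_le_mul_of_nonneg_right (by linarith) (by positivity)
    _ = _ := by field_simp

lemma ae_good {r : ℕ → ℝ≥0} (hr : Adm r) : ∀ᵐ ω ∂PW r, Good r ω := by
  refine ae_all_iff.2 fun T => ?_
  have h := ae_eventually_notMem (μ := infinitePi fun k => layer (r k))
    (ne_top_of_le_ne_top ((summable_inv_L 0 one_ne_zero).mul_left _).tsum_ofReal_ne_top
      (ENNReal.tsum_le_tsum fun k => ((measurePreserving_eval_infinitePi
        (fun k => layer (r k)) k).measure_preimage_le _).trans (grid_prob hr T k)))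
  filter_upwards [h] with ω hω
  filter_upwards [hω] with k hk t ht
  simp only [Set.mem_preimage, Set.mem_iUnion, Finset.mem_range, Set.mem_ofPred_eq, not_exists,
    not_le, Function.eval] at hk
  have h0 := hr.pos k
  have h1 : (r k : ℝ) * t ≤ 2 * L k ^ 10 * T :=
    mul_le_mul (hr k).2 (by exact_mod_cast ht) t.2 (by positivity)
  have h2 : (⌊(r k : ℝ) * t⌋₊ : ℝ) ≤ r k * t := Nat.floor_le (by positivity)
  have h3 := Nat.lt_floor_add_one ((r k : ℝ) * t)
  have h4 : ⌊(r k : ℝ) * t⌋₊ ≤ 2 * L k ^ 10 * T := by exact_mod_cast h2.trans h1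
  have h5 := abs_lt.1 (hk ⌊(r k : ℝ) * t⌋₊ (by omega))
  have h6 := abs_lt.1 (hk (⌊(r k : ℝ) * t⌋₊ + 1) (by omega))
  push_cast at h5 h6
  rw [mul_div_cancel₀ _ h0.ne'] at h5 h6
  have h7 := NN_mono (ω k) (show (⌊(r k : ℝ) * t⌋₊ : ℝ) / r k ≤ t by
    rw [div_le_iff₀ h0]; linarith)
  have h8 := NN_mono (ω k) (show t ≤ ((⌊(r k : ℝ) * t⌋₊ : ℝ) + 1) / r k by
    rw [le_div_iff₀ h0]; linarith)
  have h9 := pow_le_pow_left₀ zero_le_two (two_le_L k) 6
  simp only at h7 h8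
  rw [abs_le]
  constructor <;> linarith

/-- One compensated layer. -/
noncomputable def tm (r : ℕ → ℝ≥0) (k : ℕ) (t : ℝ≥0) (ω : ℕ → Layer) : ℝ :=
  (NN t (ω k) - r k * t) / (L k : ℝ) ^ 9

lemma measurable_tm (r : ℕ → ℝ≥0) (k : ℕ) (t : ℝ≥0) : Measurable (tm r k t) :=
  (((measurable_NN t).comp (measurable_pi_apply k)).sub_const _).div_const _

lemma Good.tm_le {r : ℕ → ℝ≥0} {ω : ℕ → Layer} (h : Good r ω) (T : ℕ) :
    ∃ K, ∀ k, K ≤ k → ∀ t : ℝ≥0, t ≤ T → |tm r k t ω| ≤ 1 / (L k : ℝ) ^ 3 := by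
  obtain ⟨K, hK⟩ := eventually_atTop.1 (h T)
  refine ⟨K, fun k hk t ht => ?_⟩
  have := L_pos k
  rw [tm, abs_div, abs_of_pos (by positivity : (0 : ℝ) < (L k : ℝ) ^ 9)]
  refine (div_le_div_of_nonneg_right (hK k hk t ht) (by positivity)).trans_eq ?_
  field_simp

lemma Good.bound {r : ℕ → ℝ≥0} {ω : ℕ → Layer} (h : Good r ω) (T : ℕ) :
    ∃ b : ℕ → ℝ, Summable b ∧ ∀ t : ℝ≥0, t ≤ T → ∀ k, ‖tm r k t ω‖ ≤ b k := by
  obtain ⟨K, hK⟩ := h.tm_le T
  refine ⟨fun k => if K ≤ k then 1 / (L k : ℝ) ^ 3 else (NN T (ω k) + r k * T) / (L k : ℝ) ^ 9,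
    (summable_nat_add_iff K).1 (by simpa using summable_inv_L K three_ne_zero), fun t ht k => ?_⟩
  simp only [Real.norm_eq_abs]
  split_ifs with h1
  · exact hK k h1 t ht
  · have := L_pos k
    have h2 : (t : ℝ) ≤ T := by exact_mod_cast ht
    have h3 := NN_mono (ω k) h2
    have h4 := NN_mono (ω k) t.2
    have h5 := mul_le_mul_of_nonneg_left h2 (r k).2
    have h6 : (0 : ℝ) ≤ r k * t := by positivity
    simp only [NN_zero, NNReal.val_eq_coe] at h3 h4 h5
    rw [tm, abs_div, abs_of_pos (by positivity : (0 : ℝ) < (L k : ℝ) ^ 9)]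
    refine div_le_div_of_nonneg_right (abs_le.2 ⟨?_, ?_⟩) (by positivity) <;> linarith

lemma Good.summable {r : ℕ → ℝ≥0} {ω : ℕ → Layer} (h : Good r ω) (t : ℝ≥0) :
    Summable fun k => tm r k t ω := by
  obtain ⟨b, h1, h2⟩ := h.bound ⌈t⌉₊
  exact h1.of_norm_bounded (h2 t (Nat.le_ceil t))

/-- A measurable event of full probability on which the series converges. -/
def G (r : ℕ → ℝ≥0) : Set (ℕ → Layer) := (toMeasurable (PW r) {ω | ¬Good r ω})ᶜ

lemma measurableSet_G (r : ℕ → ℝ≥0) : MeasurableSet (G r) :=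
  (measurableSet_toMeasurable _ _).compl

lemma good_of_G {r : ℕ → ℝ≥0} {ω : ℕ → Layer} (h : ω ∈ G r) : Good r ω :=
  not_not.1 fun h1 => h (subset_toMeasurable _ _ h1)

lemma ae_G {r : ℕ → ℝ≥0} (hr : Adm r) : ∀ᵐ ω ∂PW r, ω ∈ G r :=
  compl_mem_ae_iff.2 ((measure_toMeasurable _).trans (ae_iff.1 (ae_good hr)))

/-- The process. -/
noncomputable def W (r : ℕ → ℝ≥0) (t : ℝ≥0) : (ℕ → Layer) → ℝ :=
  (G r).indicator fun ω => ∑' k, tm r k t ω

lemma W_eq {r : ℕ → ℝ≥0} {ω : ℕ → Layer} (h : ω ∈ G r) (t : ℝ≥0) :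
    W r t ω = ∑' k, tm r k t ω := Set.indicator_of_mem h _

lemma W_eq' {r : ℕ → ℝ≥0} {ω : ℕ → Layer} (h : ω ∉ G r) (t : ℝ≥0) : W r t ω = 0 :=
  Set.indicator_of_notMem h _

lemma tendsto_W {r : ℕ → ℝ≥0} {ω : ℕ → Layer} (h : ω ∈ G r) (t : ℝ≥0) :
    Tendsto (fun K => ∑ k ∈ Finset.range K, tm r k t ω) atTop (𝓝 (W r t ω)) := by
  rw [W_eq h]
  exact ((good_of_G h).summable t).hasSum.tendsto_sum_nat

lemma tail_W {r : ℕ → ℝ≥0} {ω : ℕ → Layer} (h : ω ∈ G r) (T : ℕ) : ∀ᶠ K in atTop,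
    ∀ t : ℝ≥0, t ≤ T → |W r t ω - ∑ k ∈ Finset.range K, tm r k t ω| ≤ 2 / (L K : ℝ) ^ 3 := by
  obtain ⟨N, hN⟩ := (good_of_G h).tm_le T
  filter_upwards [eventually_ge_atTop N] with K hK t ht
  rw [W_eq h, ← ((good_of_G h).summable t).sum_add_tsum_nat_add K, add_sub_cancel_left]
  exact (tsum_of_norm_bounded (f := fun i => tm r (i + K) t ω)
    (summable_inv_L K three_ne_zero).hasSum
    fun i => hN (i + K) (by omega) t ht).trans (tsum_inv_L K three_ne_zero)

lemma measurable_W (r : ℕ → ℝ≥0) (t : ℝ≥0) : Measurable (W r t) := by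
  refine measurable_of_tendsto_metrizable (f := fun K => (G r).indicator fun ω =>
    ∑ k ∈ Finset.range K, tm r k t ω) (fun K => (Finset.measurable_sum _
      fun k _ => measurable_tm r k t).indicator (measurableSet_G r)) (tendsto_pi_nhds.2 fun ω => ?_)
  by_cases h : ω ∈ G r
  · simpa only [Set.indicator_of_mem h] using tendsto_W h t
  · simp only [Set.indicator_of_notMem h, W_eq' h, tendsto_const_nhds]

lemma W_zero (r : ℕ → ℝ≥0) (ω : ℕ → Layer) : W r 0 ω = 0 := by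
  by_cases h : ω ∈ G r
  · simp [W_eq h, tm, NN_zero]
  · exact W_eq' h 0

lemma W_right (r : ℕ → ℝ≥0) (ω : ℕ → Layer) (t : ℝ≥0) :
    ContinuousWithinAt (fun s => W r s ω) (Set.Ici t) t := by
  by_cases h : ω ∈ G r
  · obtain ⟨b, h1, h2⟩ := (good_of_G h).bound (⌈t⌉₊ + 1)
    simp only [ContinuousWithinAt, W_eq h]
    refine tendsto_tsum_of_dominated_convergence h1 (fun k => ?_) ?_
    · refine (Tendsto.sub ?_ ?_).div_const _
      · exact (NN_right (ω k) t).comp NNReal.continuous_coe.continuousWithinAt fun s hs => hs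
      · exact (continuous_const.mul NNReal.continuous_coe).continuousWithinAt
    · filter_upwards [mem_nhdsWithin_of_mem_nhds (Iio_mem_nhds (lt_add_one t))] with s hs
      refine h2 s (hs.le.trans ?_)
      push_cast
      exact add_le_add_left (Nat.le_ceil t) _
  · simp only [W_eq' h, continuousWithinAt_const]

lemma W_left (r : ℕ → ℝ≥0) (ω : ℕ → Layer) (t : ℝ≥0) :
    ∃ l, l ≤ W r t ω ∧ Tendsto (fun s => W r s ω) (𝓝[<] t) (𝓝 l) := by
  by_cases h : ω ∈ G r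
  · obtain ⟨b, h1, h2⟩ := (good_of_G h).bound ⌈t⌉₊
    have hm : ∀ k, Monotone fun s : ℝ≥0 => NN s (ω k) :=
      fun k => (NN_mono (ω k)).comp NNReal.coe_mono
    have h3 : ∀ k, Tendsto (fun s => tm r k s ω) (𝓝[<] t) (𝓝 ((Function.leftLim
        (fun s : ℝ≥0 => NN s (ω k)) t - r k * t) / (L k : ℝ) ^ 9)) := fun k =>
      (((hm k).tendsto_leftLim t).sub
        (continuous_const.mul NNReal.continuous_coe).continuousWithinAt).div_const _
    have h4 : ∀ᶠ s in 𝓝[<] t, ∀ k, ‖tm r k s ω‖ ≤ b k := by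
      filter_upwards [self_mem_nhdsWithin] with s hs
      exact h2 s (hs.le.trans (Nat.le_ceil t))
    rcases eq_or_neBot (𝓝[<] t) with h5 | h5
    · exact ⟨_, le_rfl, by rw [h5]; exact tendsto_bot⟩
    simp only [W_eq h]
    refine ⟨_, ?_, tendsto_tsum_of_dominated_convergence h1 h3 h4⟩
    refine Summable.tsum_le_tsum (fun k => div_le_div_of_nonneg_right
      (sub_le_sub_right ((hm k).leftLim_le le_rfl) _) (by positivity))
      (h1.of_norm_bounded fun k => le_of_tendsto (h3 k).norm (h4.mono fun s hs => hs k))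
      ((good_of_G h).summable t)
  · exact ⟨0, (W_eq' h t).ge, by simp only [W_eq' h, tendsto_const_nhds]⟩

lemma cf_sum (r : ℕ → ℝ≥0) (K : ℕ) :
    CF (PW r) fun t ω => ∑ k ∈ Finset.range K, tm r k t ω := by
  refine CF.of_exp (fun ω => by simp [tm, NN_zero]) (fun θ => ∑ k ∈ Finset.range K,
    (r k * (cexp ((θ / (L k : ℝ) ^ 9 : ℝ) * I) - 1) - (θ / (L k : ℝ) ^ 9 * r k : ℝ) * I))
    fun n t ht θ => ?_
  have h1 : ∀ ω : ℕ → Layer, cexp ((∑ j, θ j * (∑ k ∈ Finset.range K, tm r k (t j.succ) ω -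
      ∑ k ∈ Finset.range K, tm r k (t j.castSucc) ω) : ℝ) * I) = ∏ k ∈ Finset.range K,
      cexp ((∑ j, θ j / (L k : ℝ) ^ 9 * (NN (t j.succ) (ω k) - NN (t j.castSucc) (ω k)) : ℝ) * I) *
      cexp (-∑ j, (t j.succ - t j.castSucc : ℝ) * ((θ j / (L k : ℝ) ^ 9 * r k : ℝ) * I)) := by
    intro ω
    simp only [← Complex.exp_add, ← Complex.exp_sum, ← Finset.sum_sub_distrib, Finset.mul_sum]
    rw [Finset.sum_comm]
    congr 1
    push_cast
    simp only [Finset.sum_mul, ← sub_eq_add_neg, ← Finset.sum_sub_distrib, tm]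
    refine Finset.sum_congr rfl fun k _ => Finset.sum_congr rfl fun j _ => ?_
    push_cast
    ring
  simp_rw [h1]
  refine (integral_prod_eval (fun k => layer (r k)) _ (f := fun k x =>
    cexp ((∑ j, θ j / (L k : ℝ) ^ 9 * (NN (t j.succ) x - NN (t j.castSucc) x) : ℝ) * I) *
    cexp (-∑ j, (t j.succ - t j.castSucc : ℝ) * ((θ j / (L k : ℝ) ^ 9 * r k : ℝ) * I)))
    fun k => (((Finset.measurable_sum _
    fun j _ => ((measurable_NN _).sub (measurable_NN _)).const_mul _).complex_ofReal.mul_const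
      _).cexp).mul_const _).trans ?_
  simp_rw [integral_mul_const, fun k => cf_NN (r k) (t := fun j => (t j : ℝ))
    (NNReal.coe_mono.comp ht) fun j => (t j).2, ← Complex.exp_add, ← Complex.exp_sum,
    Finset.mul_sum]
  rw [Finset.sum_comm]
  congr 1
  refine Finset.sum_congr rfl fun k _ => ?_
  rw [← sub_eq_add_neg, ← Finset.sum_sub_distrib]
  exact Finset.sum_congr rfl fun j _ => by ring

lemma isLevy_W {r : ℕ → ℝ≥0} (hr : Adm r) : IsLevy (PW r) (W r) := by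
  have h : CF (PW r) (W r) := CF.of_tendsto (cf_sum r)
    (fun K t => Finset.measurable_sum _ fun k _ => measurable_tm r k t)
    ((ae_G hr).mono fun ω hω t => tendsto_W hω t)
  refine ⟨measurable_W r, W_zero r, h.indep (measurable_W r), fun s t => ?_, W_right r,
    fun ω t => (W_left r ω t).imp fun l hl => hl.2⟩
  simpa using h.stat (measurable_W r) (le_self_add : s ≤ s + t)

end Pool.Agent.Lib.MP_9a0bf1_pr
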